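import Pool.Agent.MP_d32a63_an.H4.CG

/-! Two constants theorem on a rectangle for approximately holomorphic fields. -/

namespace Pool.Agent.MP_d32a63_an.H4

open Complex Set intervalIntegral

theorem mem_rect {x0 x1 y0 y1 x y : ℝ} (h1 : x0 ≤ x) (h2 : x ≤ x1) (h3 : y0 ≤ y) (h4 : y ≤ y1) :
    (x : ℂ) + y * I ∈ Rect x0 x1 y0 y1 := by
  simp [Rect, h1, h2, h3, h4]

/-- continuous truncation of the Cauchy kernel -/
noncomputable def ker (w0 : ℂ) (s : ℝ) (w : ℂ) : ℂ :=
  (starRingEnd ℂ) (w - w0) / ((max (‖w - w0‖ ^ 2) (s ^ 2) : ℝ) : ℂ)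

theorem ker_cont (w0 : ℂ) {s : ℝ} (hs : 0 < s) : Continuous (ker w0 s) := by
  unfold ker
  refine Continuous.div (by fun_prop) (by fun_prop) fun w => ?_
  have : 0 < max (‖w - w0‖ ^ 2) (s ^ 2) := lt_max_of_lt_right (by positivity)
  exact_mod_cast this.ne'

theorem ker_eq {w0 w : ℂ} {s : ℝ} (hs : 0 < s) (h : s ≤ ‖w - w0‖) : ker w0 s w = (w - w0)⁻¹ := by
  unfold ker
  have h1 : s ^ 2 ≤ ‖w - w0‖ ^ 2 := by gcongr
  rw [max_eq_left h1, Complex.inv_def, Complex.normSq_eq_norm_sq, div_eq_mul_inv]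
  push_cast; ring

theorem ker_le {w0 w : ℂ} {s : ℝ} (hs : 0 < s) (h : s ≤ ‖w - w0‖) : ‖ker w0 s w‖ ≤ s⁻¹ := by
  rw [ker_eq hs h, norm_inv]
  exact inv_anti₀ hs h

theorem RI_congr {f g : ℂ → ℂ} {x0 x1 y0 y1 : ℝ} (hx : x0 ≤ x1) (hy : y0 ≤ y1)
    (h : ∀ w ∈ Rect x0 x1 y0 y1, w.re = x0 ∨ w.re = x1 ∨ w.im = y0 ∨ w.im = y1 → f w = g w) :
    RI f x0 x1 y0 y1 = RI g x0 x1 y0 y1 := by
  unfold RI
  have e1 : (∫ x : ℝ in x0..x1, f (x + y0 * I)) = ∫ x : ℝ in x0..x1, g (x + y0 * I) :=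
    integral_congr fun x hx' => by
      rw [uIcc_of_le hx] at hx'; exact h _ (by simp [Rect, hx'.1, hx'.2, hy]) (by simp)
  have e2 : (∫ x : ℝ in x0..x1, f (x + y1 * I)) = ∫ x : ℝ in x0..x1, g (x + y1 * I) :=
    integral_congr fun x hx' => by
      rw [uIcc_of_le hx] at hx'; exact h _ (by simp [Rect, hx'.1, hx'.2, hy]) (by simp)
  have e3 : (∫ y : ℝ in y0..y1, f (x1 + y * I)) = ∫ y : ℝ in y0..y1, g (x1 + y * I) :=
    integral_congr fun x hx' => by
      rw [uIcc_of_le hy] at hx'; exact h _ (by simp [Rect, hx'.1, hx'.2, hx]) (by simp)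
  have e4 : (∫ y : ℝ in y0..y1, f (x0 + y * I)) = ∫ y : ℝ in y0..y1, g (x0 + y * I) :=
    integral_congr fun x hx' => by
      rw [uIcc_of_le hy] at hx'; exact h _ (by simp [Rect, hx'.1, hx'.2, hx]) (by simp)
  rw [e1, e2, e3, e4]

/-- the Cauchy kernel on a square has boundary integral of modulus at least four -/
theorem RI_ker (w0 : ℂ) {s : ℝ} (hs : 0 < s) :
    4 ≤ ‖RI (ker w0 s) (w0.re - s) (w0.re + s) (w0.im - s) (w0.im + s)‖ := by
  have hc := ker_cont w0 hs
  have hmax : ∀ t : ℝ, max (t ^ 2 + s ^ 2) (s ^ 2) = t ^ 2 + s ^ 2 := fun t =>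
    max_eq_left (by nlinarith [sq_nonneg t])
  set J : ℝ := ∫ t : ℝ in (-s)..s, 2 * s / (t ^ 2 + s ^ 2) with hJ
  have hpos : ∀ t : ℝ, 0 < t ^ 2 + s ^ 2 := fun t => by positivity
  have hJ2 : 2 ≤ J := by
    have h1 : ∫ _t : ℝ in (-s)..s, s⁻¹ ≤ J := by
      refine integral_mono_on (by linarith) (by simp) ?_ fun t ht => ?_
      · exact (Continuous.div (by fun_prop) (by fun_prop) fun t => (hpos t).ne').intervalIntegrable
          _ _
      · rw [le_div_iff₀ (hpos t), inv_mul_le_iff₀ hs]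
        have : t ^ 2 ≤ s ^ 2 := by
          apply sq_le_sq'
          · exact ht.1
          · exact ht.2
        nlinarith
    rw [integral_const] at h1
    have : (s - -s) • s⁻¹ = 2 := by simp only [smul_eq_mul]; field_simp; ring
    linarith
  have e1 : (∫ x : ℝ in (w0.re - s)..(w0.re + s), ker w0 s (x + (w0.im - s : ℝ) * I)) -
      (∫ x : ℝ in (w0.re - s)..(w0.re + s), ker w0 s (x + (w0.im + s : ℝ) * I)) = I * J := by
    rw [← integral_sub (iiH hc _ _ _) (iiH hc _ _ _), hJ, ← integral_ofReal, ← integral_const_mul]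
    have := integral_comp_add_right (a := -s) (b := s)
      (fun x : ℝ => ker w0 s (x + (w0.im - s : ℝ) * I) - ker w0 s (x + (w0.im + s : ℝ) * I)) w0.re
    rw [show -s + w0.re = w0.re - s by ring, show s + w0.re = w0.re + s by ring] at this
    rw [← this]
    refine integral_congr fun t _ => ?_
    have a1 : ((t + w0.re : ℝ) : ℂ) + (w0.im - s : ℝ) * I - w0 = t - s * I := by
      apply Complex.ext <;> simp
    have a2 : ((t + w0.re : ℝ) : ℂ) + (w0.im + s : ℝ) * I - w0 = t + s * I := by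
      apply Complex.ext <;> simp
    have n1 : ‖(t : ℂ) - s * I‖ ^ 2 = t ^ 2 + s ^ 2 := by
      rw [← Complex.normSq_eq_norm_sq, Complex.normSq_apply]; simp; ring
    have n2 : ‖(t : ℂ) + s * I‖ ^ 2 = t ^ 2 + s ^ 2 := by
      rw [← Complex.normSq_eq_norm_sq, Complex.normSq_apply]; simp; ring
    simp only [ker, a1, a2, n1, n2, hmax]
    simp only [map_sub, map_add, map_mul, conj_ofReal, conj_I]
    push_cast
    ring
  have e2 : (∫ y : ℝ in (w0.im - s)..(w0.im + s), ker w0 s ((w0.re + s : ℝ) + y * I)) -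
      (∫ y : ℝ in (w0.im - s)..(w0.im + s), ker w0 s ((w0.re - s : ℝ) + y * I)) = J := by
    rw [← integral_sub (iiV hc _ _ _) (iiV hc _ _ _), hJ, ← integral_ofReal]
    have := integral_comp_add_right (a := -s) (b := s)
      (fun y : ℝ => ker w0 s ((w0.re + s : ℝ) + y * I) - ker w0 s ((w0.re - s : ℝ) + y * I)) w0.im
    rw [show -s + w0.im = w0.im - s by ring, show s + w0.im = w0.im + s by ring] at this
    rw [← this]
    refine integral_congr fun t _ => ?_
    have a1 : ((w0.re + s : ℝ) : ℂ) + (t + w0.im : ℝ) * I - w0 = s + t * I := by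
      apply Complex.ext <;> simp
    have a2 : ((w0.re - s : ℝ) : ℂ) + (t + w0.im : ℝ) * I - w0 = -s + t * I := by
      apply Complex.ext <;> simp
    have n1 : ‖(s : ℂ) + t * I‖ ^ 2 = t ^ 2 + s ^ 2 := by
      rw [← Complex.normSq_eq_norm_sq, Complex.normSq_apply]; simp; ring
    have n2 : ‖-(s : ℂ) + t * I‖ ^ 2 = t ^ 2 + s ^ 2 := by
      rw [← Complex.normSq_eq_norm_sq, Complex.normSq_apply]; simp; ring
    simp only [ker, a1, a2, n1, n2, hmax]
    simp only [map_neg, map_add, map_mul, conj_ofReal, conj_I]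
    push_cast
    ring
  have e : RI (ker w0 s) (w0.re - s) (w0.re + s) (w0.im - s) (w0.im + s) = 2 * I * J := by
    unfold RI
    rw [e1, smul_eq_mul, smul_eq_mul, add_sub_assoc, ← mul_sub, e2]; ring
  rw [e]
  simp only [norm_mul, norm_I, norm_ofNat, norm_real, Real.norm_eq_abs]
  rw [abs_of_nonneg (by linarith)]
  linarith

/-- the weight -/
noncomputable def wt (a b lam : ℝ) (w : ℂ) : ℂ :=
  exp (lam * I * sin ((Real.pi / (2 * a) : ℝ) * (w - b * I)))

theorem wt_diff (a b lam : ℝ) : Differentiable ℂ (wt a b lam) := by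
  unfold wt; fun_prop

theorem wt_norm (a b lam : ℝ) (w : ℂ) : ‖wt a b lam w‖ =
    Real.exp (lam * (Real.cos (Real.pi / (2 * a) * w.re) *
      Real.sinh (Real.pi / (2 * a) * (b - w.im)))) := by
  unfold wt
  rw [norm_exp]
  congr 1
  have e : ((Real.pi / (2 * a) : ℝ) : ℂ) * (w - b * I) =
      (Real.pi / (2 * a) * w.re : ℝ) + (-(Real.pi / (2 * a) * (b - w.im)) : ℝ) * I := by
    apply Complex.ext
    · simp only [mul_re, ofReal_re, sub_re, I_re, mul_zero, ofReal_im, I_im, mul_one, sub_self,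
        sub_zero, zero_mul, add_re, add_zero]
    · simp only [mul_im, ofReal_re, sub_im, I_im, mul_one, ofReal_im, I_re, mul_zero, add_zero,
        zero_mul, add_im, zero_add]
      ring
  rw [e, sin_add_mul_I, ← ofReal_sin, ← ofReal_cos, ← ofReal_cosh, ← ofReal_sinh, Real.sinh_neg]
  simp only [mul_re, ofReal_re, I_re, mul_zero, ofReal_im, I_im, mul_one, sub_self, add_re,
    mul_im, add_zero, zero_mul, add_im, zero_add, ofReal_neg, neg_re, neg_im, neg_zero, sub_zero,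
    zero_sub]
  ring

/-- Two constants: a field on `[-a,a] x [0,b]` bounded by `K` and of size `K σ` on the bottom side
is of size `C K σ^α` at distance `m` from the boundary. -/
theorem tc {a b m : ℝ} (ha : 0 < a) (hb : 0 < b) (hm : 0 < m) :
    ∃ α : ℝ, 0 < α ∧ ∃ C : ℝ, 0 < C ∧ ∀ (h c : ℂ → ℂ) (K σ : ℝ), 0 < σ → σ ≤ 1 → 0 ≤ K →
      Fld h c K σ (Rect (-a) a 0 b) → (∀ w ∈ Rect (-a) a 0 b, ‖h w‖ ≤ K) →
      (∀ x : ℝ, |x| ≤ a → ‖h x‖ ≤ K * σ) →
      ∀ w0 : ℂ, |w0.re| ≤ a - m → m ≤ w0.im → w0.im ≤ b - m → ‖h w0‖ ≤ C * K * σ ^ α := by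
  by_cases hma : a < m
  · exact ⟨1, one_pos, 1, one_pos, fun h c K σ _ _ _ _ _ _ w0 h1 => by
      linarith [abs_nonneg w0.re]⟩
  push Not at hma
  have hpi := Real.pi_pos
  set k : ℝ := Real.pi / (2 * a) with hk
  have hk0 : 0 < k := by positivity
  have hka : k * a = Real.pi / 2 := by rw [hk]; field_simp
  set S : ℝ := Real.sinh (k * b) with hS
  have hS0 : 0 < S := Real.sinh_pos_iff.2 (by positivity)
  set s0 : ℝ := Real.cos (k * (a - m)) * Real.sinh (k * m) with hs0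
  have hcos0 : 0 < Real.cos (k * (a - m)) := by
    apply Real.cos_pos_of_mem_Ioo
    constructor
    · have : 0 ≤ k * (a - m) := mul_nonneg hk0.le (by linarith)
      linarith
    · nlinarith
  have hs00 : 0 < s0 := mul_pos hcos0 (Real.sinh_pos_iff.2 (by positivity))
  set C1 : ℝ := 4 * (36 * 9 * ((2 * a + 1) * (b + 1)) / m) + 8 * (9 * (2 * m + 1) ^ 2) +
    10 * (2 * a + b) / m with hC1
  have hC10 : 0 < C1 := by positivity
  refine ⟨min (s0 / (2 * S)) 1, by positivity, C1 + 4, by positivity, ?_⟩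
  intro h c K σ hσ hσ1 hK hF hM hbot w0 hw1 hw2 hw3
  obtain ⟨f, hfc, hfh, hfF⟩ := exists_cont (isClosed_rect _ _ _ _) hσ hK hF
  set u : ℝ := Real.sqrt σ with hu
  have hu0 : 0 < u := Real.sqrt_pos.2 hσ
  have huu : u * u = σ := Real.mul_self_sqrt hσ.le
  have hu1 : u ≤ 1 := by nlinarith
  have hσu : σ ≤ u := by nlinarith
  set s : ℝ := m * u with hs
  have hs0' : 0 < s := by positivity
  have hsm : s ≤ m := by nlinarith
  set lam : ℝ := -Real.log u / S with hlam
  have hlogu : Real.log u ≤ 0 := Real.log_nonpos hu0.le hu1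
  have hlam0 : 0 ≤ lam := div_nonneg (by linarith) hS0.le
  have hexpS : Real.exp (lam * S) = u⁻¹ := by
    rw [hlam, div_mul_cancel₀ _ hS0.ne', Real.exp_neg, Real.exp_log hu0]
  set E := wt a b lam with hE
  have hEd : Differentiable ℂ E := wt_diff a b lam
  have hEle : ∀ w ∈ Rect (-a) a 0 b, ‖E w‖ ≤ u⁻¹ := by
    intro w hw
    rw [hE, wt_norm, ← hexpS, ← hk]
    apply Real.exp_le_exp.2
    apply mul_le_mul_of_nonneg_left _ hlam0
    have h1 : Real.sinh (k * (b - w.im)) ≤ S := Real.sinh_le_sinh.2 (by nlinarith [hw.2.2.1])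
    have h2 : 0 ≤ Real.sinh (k * (b - w.im)) :=
      Real.sinh_nonneg_iff.2 (mul_nonneg hk0.le (by linarith [hw.2.2.2]))
    nlinarith [Real.cos_le_one (k * w.re)]
  have hE1 : ∀ w : ℂ, w.re = -a ∨ w.re = a ∨ w.im = b → ‖E w‖ = 1 := by
    intro w hw
    rw [hE, wt_norm, ← hk]
    rcases hw with hw | hw | hw
    · rw [hw, mul_neg, Real.cos_neg, hka]; simp
    · rw [hw, hka]; simp
    · rw [hw]; simp
  have hE0 : Real.exp (lam * s0) ≤ ‖E w0‖ := by
    rw [hE, wt_norm, ← hk]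
    apply Real.exp_le_exp.2
    apply mul_le_mul_of_nonneg_left _ hlam0
    have h1 : Real.cos (k * (a - m)) ≤ Real.cos (k * w0.re) := by
      rw [← Real.cos_abs (k * w0.re), abs_mul, abs_of_pos hk0]
      apply Real.cos_le_cos_of_nonneg_of_le_pi (by positivity)
      · nlinarith
      · nlinarith
    have h2 : Real.sinh (k * m) ≤ Real.sinh (k * (b - w0.im)) :=
      Real.sinh_le_sinh.2 (by nlinarith)
    exact mul_le_mul h1 h2 (Real.sinh_pos_iff.2 (by positivity)).le (hcos0.le.trans h1)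
  set φ : ℂ → ℂ := fun w => E w * ker w0 s w with hφ
  have hφc : Continuous φ := hEd.continuous.mul (ker_cont w0 hs0')
  have hc : Continuous fun w => f w * φ w := hfc.mul hφc
  obtain ⟨hw1a, hw1b⟩ := abs_le.1 hw1
  set x0 := w0.re with hx0
  set y0 := w0.im with hy0
  -- the four outer rectangles
  have outer : ∀ p q p' q' : ℝ, -a ≤ p → p ≤ q → q ≤ a → 0 ≤ p' → p' ≤ q' → q' ≤ b →
      (q ≤ x0 - s ∨ x0 + s ≤ p ∨ q' ≤ y0 - s ∨ y0 + s ≤ p') →
      ‖RI (fun w => f w * φ w) p q p' q'‖ ≤ 36 * 9 * ((2 * a + 1) * (b + 1)) / m * K := by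
    intro p q p' q' h1 h2 h3 h4 h5 h6 h7
    have hsub : Rect p q p' q' ⊆ Rect (-a) a 0 b := fun w hw =>
      ⟨h1.trans hw.1, hw.2.1.trans h3, h4.trans hw.2.2.1, hw.2.2.2.trans h6⟩
    have hfar : ∀ w ∈ Rect p q p' q', s ≤ ‖w - w0‖ := by
      intro w hw
      obtain ⟨a1, a2, a3, a4⟩ := hw
      have b1 := abs_re_le_norm (w - w0)
      have b2 := abs_im_le_norm (w - w0)
      simp only [sub_re, sub_im] at b1 b2
      rcases h7 with h7 | h7 | h7 | h7
      · linarith [neg_abs_le (w.re - w0.re)]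
      · linarith [le_abs_self (w.re - w0.re)]
      · linarith [neg_abs_le (w.im - w0.im)]
      · linarith [le_abs_self (w.im - w0.im)]
    have hd : DifferentiableOn ℂ φ (Rect p q p' q') := by
      have : DifferentiableOn ℂ (fun w => E w * (w - w0)⁻¹) (Rect p q p' q') := by
        refine hEd.differentiableOn.mul (DifferentiableOn.inv (by fun_prop) fun w hw h0 => ?_)
        have := hfar w hw
        rw [h0, norm_zero] at this; linarith
      exact this.congr fun w hw => by simp only [hφ, ker_eq hs0' (hfar w hw)]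
    have := cg (P := u⁻¹ * s⁻¹) hfc hφc hσ (by positivity) (by positivity) h2 h5 hd
      (fun w hw => by
        rw [hφ, norm_mul]
        exact mul_le_mul (hEle w (hsub hw)) (ker_le hs0' (hfar w hw)) (norm_nonneg _)
          (by positivity)) (hfF.mono hsub)
    refine this.trans ?_
    have e1 : σ * (u⁻¹ * s⁻¹) = m⁻¹ := by rw [hs, ← huu]; field_simp
    have e2 : (q - p + σ) * (q' - p' + σ) ≤ (2 * a + 1) * (b + 1) :=
      mul_le_mul (by linarith) (by linarith) (by linarith) (by linarith)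
    calc 36 * (9 * K) * σ * (u⁻¹ * s⁻¹) * ((q - p + σ) * (q' - p' + σ))
        = 36 * (9 * K) * (σ * (u⁻¹ * s⁻¹)) * ((q - p + σ) * (q' - p' + σ)) := by ring
      _ ≤ 36 * (9 * K) * m⁻¹ * ((2 * a + 1) * (b + 1)) := by rw [e1]; gcongr
      _ = _ := by field_simp
  have hdec : RI (fun w => f w * φ w) (x0 - s) (x0 + s) (y0 - s) (y0 + s) =
      RI (fun w => f w * φ w) (-a) a 0 b - RI (fun w => f w * φ w) (-a) (x0 - s) 0 b -
      RI (fun w => f w * φ w) (x0 + s) a 0 b - RI (fun w => f w * φ w) (x0 - s) (x0 + s) 0 (y0 - s) -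
      RI (fun w => f w * φ w) (x0 - s) (x0 + s) (y0 + s) b := by
    rw [RI_add_x hc (-a) (x0 - s) a, RI_add_x hc (x0 - s) (x0 + s) a,
      RI_add_y hc (x0 - s) (x0 + s) 0 (y0 - s) b, RI_add_y hc (x0 - s) (x0 + s) (y0 - s) (y0 + s) b]
    ring
  have o1 := outer (-a) (x0 - s) 0 b le_rfl (by linarith) (by linarith) le_rfl hb.le le_rfl
    (Or.inl le_rfl)
  have o2 := outer (x0 + s) a 0 b (by linarith) (by linarith) le_rfl le_rfl hb.le le_rfl
    (Or.inr (Or.inl le_rfl))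
  have o3 := outer (x0 - s) (x0 + s) 0 (y0 - s) (by linarith) (by linarith) (by linarith) le_rfl
    (by linarith) (by linarith) (Or.inr (Or.inr (Or.inl le_rfl)))
  have o4 := outer (x0 - s) (x0 + s) (y0 + s) b (by linarith) (by linarith) (by linarith)
    (by linarith) (by linarith) le_rfl (Or.inr (Or.inr (Or.inr le_rfl)))
  -- the outer boundary
  have hσ2 : σ ^ 2 ≤ σ := by nlinarith
  have hkm : ∀ w : ℂ, m ≤ ‖w - w0‖ → ‖ker w0 s w‖ ≤ m⁻¹ := fun w hw => by
    rw [ker_eq hs0' (hsm.trans hw), norm_inv]; exact inv_anti₀ hm hw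
  have hbd : ∀ w ∈ Rect (-a) a 0 b, w.re = -a ∨ w.re = a ∨ w.im = b ∨ w.im = 0 →
      ‖f w * φ w‖ ≤ 5 * K / m := by
    intro w hw hw'
    have b1 := abs_re_le_norm (w - w0)
    have b2 := abs_im_le_norm (w - w0)
    simp only [sub_re, sub_im] at b1 b2
    have hfar : m ≤ ‖w - w0‖ := by
      rcases hw' with h7 | h7 | h7 | h7
      · linarith [neg_abs_le (w.re - w0.re)]
      · linarith [le_abs_self (w.re - w0.re)]
      · linarith [le_abs_self (w.im - w0.im)]
      · linarith [neg_abs_le (w.im - w0.im)]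
    have h1 := hkm w hfar
    have h2 : ‖f w‖ ≤ ‖h w‖ + 4 * K * σ ^ 2 := by
      have := norm_add_le (f w - h w) (h w)
      rw [sub_add_cancel] at this
      linarith [hfh w hw]
    have h3 : ‖f w‖ * ‖E w‖ ≤ 5 * K := by
      by_cases h4 : w.im = 0
      · have h5 : w = (w.re : ℂ) := by apply Complex.ext <;> simp [h4]
        have h6 := hbot w.re (abs_le.2 ⟨hw.1, hw.2.1⟩)
        rw [← h5] at h6
        have h7 : ‖f w‖ ≤ 5 * K * u := by
          have a1 : K * σ ≤ K * u := mul_le_mul_of_nonneg_left hσu hK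
          have a2 : K * σ ^ 2 ≤ K * σ := mul_le_mul_of_nonneg_left hσ2 hK
          linarith
        calc ‖f w‖ * ‖E w‖ ≤ 5 * K * u * u⁻¹ :=
              mul_le_mul h7 (hEle w hw) (norm_nonneg _) (by positivity)
          _ = 5 * K := by field_simp
      · rw [hE1 w (by tauto), mul_one]
        have := hM w hw
        have a2 : K * σ ^ 2 ≤ K * 1 := mul_le_mul_of_nonneg_left (hσ2.trans hσ1) hK
        linarith
    rw [hφ, norm_mul, norm_mul, ← mul_assoc, div_eq_mul_inv]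
    exact mul_le_mul h3 h1 (norm_nonneg _) (by positivity)
  have o0 : ‖RI (fun w => f w * φ w) (-a) a 0 b‖ ≤ 10 * (2 * a + b) / m * K := by
    have := RI_le (f := fun w => f w * φ w) (x0 := -a) (x1 := a) (y0 := 0) (y1 := b)
      (by linarith) hb.le (B1 := 5 * K / m) (B2 := 5 * K / m) (B3 := 5 * K / m) (B4 := 5 * K / m)
      (fun x a1 a2 => hbd _ (by simp [Rect, a1, a2, hb.le]) (by simp))
      (fun x a1 a2 => hbd _ (by simp [Rect, a1, a2, hb.le]) (by simp))
      (fun x a1 a2 => hbd _ (by simp [Rect, a1, a2, ha.le]) (by simp))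
      (fun x a1 a2 => hbd _ (by simp [Rect, a1, a2, ha.le]) (by simp))
    refine this.trans (le_of_eq ?_)
    field_simp; ring
  -- the inner square
  have hx' : x0 - s ≤ x0 + s := by linarith
  have hy' : y0 - s ≤ y0 + s := by linarith
  have hsq : Rect (x0 - s) (x0 + s) (y0 - s) (y0 + s) ⊆ Rect (-a) a 0 b := fun w hw =>
    ⟨by linarith [hw.1], by linarith [hw.2.1], by linarith [hw.2.2.1], by linarith [hw.2.2.2]⟩
  have hw0 : w0 ∈ Rect (x0 - s) (x0 + s) (y0 - s) (y0 + s) :=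
    ⟨by linarith, by linarith, by linarith, by linarith⟩
  have hedge : ∀ w ∈ Rect (x0 - s) (x0 + s) (y0 - s) (y0 + s),
      w.re = x0 - s ∨ w.re = x0 + s ∨ w.im = y0 - s ∨ w.im = y0 + s → s ≤ ‖w - w0‖ := by
    intro w _ hw'
    have b1 := abs_re_le_norm (w - w0)
    have b2 := abs_im_le_norm (w - w0)
    simp only [sub_re, sub_im] at b1 b2
    rcases hw' with h7 | h7 | h7 | h7
    · linarith [neg_abs_le (w.re - w0.re)]
    · linarith [le_abs_self (w.re - w0.re)]
    · linarith [neg_abs_le (w.im - w0.im)]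
    · linarith [le_abs_self (w.im - w0.im)]
  set A : ℂ → ℂ := fun w => (f w0 + c w0 * (w - w0)) * E w with hA
  have hAd : Differentiable ℂ A := by rw [hA]; fun_prop
  have hDd : Differentiable ℂ (dslope A w0) :=
    differentiableOn_univ.1 ((differentiableOn_dslope Filter.univ_mem).2 hAd.differentiableOn)
  have hkc := ker_cont w0 hs0'
  have inner : RI (fun w => f w * φ w) (x0 - s) (x0 + s) (y0 - s) (y0 + s) =
      RI (fun w => (f w - f w0 - c w0 * (w - w0)) * φ w) (x0 - s) (x0 + s) (y0 - s) (y0 + s) +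
      A w0 * RI (ker w0 s) (x0 - s) (x0 + s) (y0 - s) (y0 + s) := by
    have e1 : RI (fun w => A w0 * ker w0 s w) (x0 - s) (x0 + s) (y0 - s) (y0 + s) =
        A w0 * RI (ker w0 s) (x0 - s) (x0 + s) (y0 - s) (y0 + s) := by
      unfold RI
      simp only [integral_const_mul, smul_eq_mul]; ring
    have e2 := RI_zero hx' hy' hDd.differentiableOn
    have hDc := hDd.continuous
    have e3 := RI_add (f := fun w => A w0 * ker w0 s w) (g := dslope A w0) (by fun_prop) hDc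
      (x0 - s) (x0 + s) (y0 - s) (y0 + s)
    have e4 := RI_add (f := fun w => (f w - f w0 - c w0 * (w - w0)) * φ w)
      (g := fun w => A w0 * ker w0 s w + dslope A w0 w) (by fun_prop) (by fun_prop)
      (x0 - s) (x0 + s) (y0 - s) (y0 + s)
    rw [e3, e2, add_zero, e1] at e4
    rw [← e4]
    refine RI_congr hx' hy' fun w hw hw' => ?_
    have h1 := hedge w hw hw'
    have h2 : w ≠ w0 := by
      intro h0; rw [h0, sub_self, norm_zero] at h1; linarith
    rw [dslope_of_ne _ h2, slope_def_field]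
    simp only [hφ, ker_eq hs0' h1, hA]
    ring
  have i1 : ‖RI (fun w => (f w - f w0 - c w0 * (w - w0)) * φ w) (x0 - s) (x0 + s) (y0 - s)
      (y0 + s)‖ ≤ 8 * (9 * (2 * m + 1) ^ 2) * K := by
    have hB : ∀ w ∈ Rect (x0 - s) (x0 + s) (y0 - s) (y0 + s),
        w.re = x0 - s ∨ w.re = x0 + s ∨ w.im = y0 - s ∨ w.im = y0 + s →
        ‖(f w - f w0 - c w0 * (w - w0)) * φ w‖ ≤ 9 * K * (2 * m + 1) ^ 2 * s⁻¹ := by
      intro w hw hw'
      have h1 := hfF w0 (hsq hw0) w (hsq hw)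
      have h2 : ‖w - w0‖ ≤ 2 * s := by
        refine (norm_le_abs_re_add_abs_im _).trans ?_
        obtain ⟨a1, a2, a3, a4⟩ := hw
        have e1 : |(w - w0).re| ≤ s := by rw [abs_le]; simp; constructor <;> linarith
        have e2 : |(w - w0).im| ≤ s := by rw [abs_le]; simp; constructor <;> linarith
        linarith
      have h3 : 9 * K * (‖w - w0‖ + σ) ^ 2 ≤ 9 * K * ((2 * m + 1) * u) ^ 2 := by
        gcongr; linarith
      rw [hφ, norm_mul, norm_mul]
      calc _ ≤ 9 * K * ((2 * m + 1) * u) ^ 2 * (u⁻¹ * s⁻¹) :=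
            mul_le_mul (h1.trans h3) (mul_le_mul (hEle w (hsq hw)) (ker_le hs0' (hedge w hw hw'))
              (norm_nonneg _) (by positivity)) (by positivity) (by positivity)
        _ = 9 * K * (2 * m + 1) ^ 2 * s⁻¹ * u := by field_simp
        _ ≤ 9 * K * (2 * m + 1) ^ 2 * s⁻¹ * 1 := by gcongr
        _ = _ := by ring
    have := RI_le (f := fun w => (f w - f w0 - c w0 * (w - w0)) * φ w) hx' hy'
      (fun x a1 a2 => hB _ (mem_rect a1 a2 le_rfl hy') (by simp))
      (fun x a1 a2 => hB _ (mem_rect a1 a2 hy' le_rfl) (by simp))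
      (fun x a1 a2 => hB _ (mem_rect hx' le_rfl a1 a2) (by simp))
      (fun x a1 a2 => hB _ (mem_rect le_rfl hx' a1 a2) (by simp))
    refine this.trans (le_of_eq ?_)
    field_simp; ring
  have hker := RI_ker w0 hs0'
  rw [← hx0, ← hy0] at hker
  have hmain : ‖A w0‖ * 4 ≤ C1 * K := by
    have h1 : A w0 * RI (ker w0 s) (x0 - s) (x0 + s) (y0 - s) (y0 + s) =
      RI (fun w => f w * φ w) (-a) a 0 b - RI (fun w => f w * φ w) (-a) (x0 - s) 0 b -
      RI (fun w => f w * φ w) (x0 + s) a 0 b - RI (fun w => f w * φ w) (x0 - s) (x0 + s) 0 (y0 - s) -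
      RI (fun w => f w * φ w) (x0 - s) (x0 + s) (y0 + s) b -
      RI (fun w => (f w - f w0 - c w0 * (w - w0)) * φ w) (x0 - s) (x0 + s) (y0 - s) (y0 + s) := by
      rw [← hdec, inner]; ring
    have h2 : ‖A w0‖ * 4 ≤ ‖A w0 * RI (ker w0 s) (x0 - s) (x0 + s) (y0 - s) (y0 + s)‖ := by
      rw [norm_mul (A w0)]; exact mul_le_mul_of_nonneg_left hker (norm_nonneg _)
    rw [h1] at h2
    refine h2.trans ?_
    refine (norm_sub_le_of_le (norm_sub_le_of_le (norm_sub_le_of_le (norm_sub_le_of_le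
      (norm_sub_le_of_le o0 o1) o2) o3) o4) i1).trans (le_of_eq ?_)
    rw [hC1]; ring
  have hA0 : ‖A w0‖ = ‖f w0‖ * ‖E w0‖ := by simp [hA]
  have hexp : Real.exp (lam * s0) = (σ ^ (s0 / (2 * S)))⁻¹ := by
    rw [Real.rpow_def_of_pos hσ, ← Real.exp_neg, ← huu, Real.log_mul hu0.ne' hu0.ne', hlam]
    congr 1
    field_simp; ring
  have hp0 : 0 < σ ^ (s0 / (2 * S)) := Real.rpow_pos_of_pos hσ _
  have hf0 : ‖f w0‖ ≤ C1 * K * σ ^ (s0 / (2 * S)) := by
    have h1 : ‖f w0‖ * (σ ^ (s0 / (2 * S)))⁻¹ ≤ C1 * K := by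
      rw [← hexp]
      have := mul_le_mul_of_nonneg_left hE0 (norm_nonneg (f w0))
      have h2 : 0 ≤ C1 * K := by positivity
      linarith
    rwa [mul_inv_le_iff₀ hp0] at h1
  have h1 : σ ^ (s0 / (2 * S)) ≤ σ ^ min (s0 / (2 * S)) 1 :=
    Real.rpow_le_rpow_of_exponent_ge hσ hσ1 (min_le_left _ _)
  have h2 : σ ≤ σ ^ min (s0 / (2 * S)) 1 := by
    have := Real.rpow_le_rpow_of_exponent_ge hσ hσ1 (min_le_right (s0 / (2 * S)) 1)
    rwa [Real.rpow_one] at this
  have h3 : ‖h w0‖ ≤ ‖f w0‖ + 4 * K * σ ^ 2 := by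
    have := norm_sub_le (f w0) (f w0 - h w0)
    rw [sub_sub_cancel] at this
    linarith [hfh w0 (hsq hw0)]
  have h4 : C1 * K * σ ^ (s0 / (2 * S)) ≤ C1 * K * σ ^ min (s0 / (2 * S)) 1 := by gcongr
  have h5 : 4 * K * σ ^ 2 ≤ 4 * K * σ ^ min (s0 / (2 * S)) 1 := by gcongr; linarith
  linarith

/-- the form with a central box -/
theorem tc' {a b y1 y2 : ℝ} (ha : 0 < a) (h1 : 0 < y1) (h12 : y1 ≤ y2) (h2 : y2 < b) :
    ∃ α : ℝ, 0 < α ∧ ∃ C : ℝ, 0 < C ∧ ∀ (h c : ℂ → ℂ) (K σ : ℝ), 0 < σ → σ ≤ 1 → 0 ≤ K →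
      Fld h c K σ (Rect (-a) a 0 b) → (∀ w ∈ Rect (-a) a 0 b, ‖h w‖ ≤ K) →
      (∀ x : ℝ, |x| ≤ a → ‖h x‖ ≤ K * σ) →
      ∀ w0 ∈ Rect (-(a / 2)) (a / 2) y1 y2, ‖h w0‖ ≤ C * K * σ ^ α := by
  have hm : 0 < min (a / 2) (min y1 (b - y2)) := by
    refine lt_min (by linarith) (lt_min h1 (by linarith))
  obtain ⟨α, hα, C, hC, H⟩ := tc ha (by linarith : 0 < b) hm
  refine ⟨α, hα, C, hC, fun h c K σ a1 a2 a3 a4 a5 a6 w0 hw => H h c K σ a1 a2 a3 a4 a5 a6 w0 ?_ ?_ ?_⟩
  · have := min_le_left (a / 2) (min y1 (b - y2))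
    rw [abs_le]; constructor <;> linarith [hw.1, hw.2.1]
  · exact ((min_le_right _ _).trans (min_le_left _ _)).trans hw.2.2.1
  · have := (min_le_right (a / 2) _).trans (min_le_right y1 (b - y2))
    linarith [hw.2.2.2]

end Pool.Agent.MP_d32a63_an.H4
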