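import Pool.Agent.MP_d32a63_an.H4.Tools
import Pool.Agent.MP_d32a63_an.H95.Defs

/-! Limit step tools: fields of mesh zero, unique continuation on a tube, gluing across walls. -/

namespace Pool.Agent.MP_d32a63_an.H4

open Complex Set Metric Filter Topology Pool.Agent.MP_d32a63_an.H95

/-- an exact first order field is complex differentiable -/
theorem hasDerivAt_of_sq {g : ℂ → ℂ} {c x : ℂ} {K : ℝ}
    (h : ∀ᶠ y in 𝓝 x, ‖g y - g x - c * (y - x)‖ ≤ K * ‖y - x‖ ^ 2) : HasDerivAt g c x := by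
  rw [hasDerivAt_iff_isLittleO]
  have h1 : (fun y => g y - g x - (y - x) • c) =O[𝓝 x] fun y => ‖y - x‖ ^ 2 := by
    refine Asymptotics.IsBigO.of_bound K (h.mono fun y hy => ?_)
    rw [smul_eq_mul, mul_comm (y - x) c]
    simpa using hy
  refine h1.trans_isLittleO ?_
  have := (Asymptotics.isLittleO_pow_sub_sub x (m := 2) (by norm_num))
  exact this

/-- unique continuation on a tube -/
theorem clopen {U : Set ℂ} (hU : IsOpen U) (hUc : IsPreconnected U) {F : ℂ → ℂ}
    (hF : ContinuousOn F U) {Φ : ℂ → ℂ → ℂ} {ρ : ℝ} (hρ : 0 < ρ)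
    (hw : ∀ z ∈ U, DifferentiableOn ℂ (Φ z) (ball (F z) ρ))
    (hz : ∀ z ∈ U, ∃ r > 0, ∀ w ∈ ball (F z) (ρ / 2), DifferentiableOn ℂ (fun z' => Φ z' w) (ball z r))
    {V : Set ℂ} (hV : IsOpen V) (hVU : (V ∩ U).Nonempty)
    (hconst : ∀ z ∈ V ∩ U, ∀ w ∈ ball (F z) ρ, Φ z w = Φ z (F z)) :
    (∀ z ∈ U, ∀ w ∈ ball (F z) ρ, Φ z w = Φ z (F z)) ∧
      DifferentiableOn ℂ (fun z => Φ z (F z)) U := by
  set P : ℂ → Prop := fun z => ∀ w ∈ ball (F z) ρ, Φ z w = Φ z (F z) with hP
  -- good discs
  have good : ∀ z ∈ U, ∃ r > 0, ball z r ⊆ U ∧ (∀ z' ∈ ball z r, dist (F z') (F z) < ρ / 4) ∧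
      ∀ w ∈ ball (F z) (ρ / 2), DifferentiableOn ℂ (fun z' => Φ z' w) (ball z r) := by
    intro z hzU
    obtain ⟨r, hr, h1⟩ := hz z hzU
    have h2 : ∀ᶠ z' in 𝓝 z, z' ∈ U ∧ dist (F z') (F z) < ρ / 4 :=
      Filter.Eventually.and (hU.mem_nhds hzU)
        (Metric.tendsto_nhds.1 (hF.continuousAt (hU.mem_nhds hzU)) _ (by positivity))
    obtain ⟨r', hr', h3⟩ := Metric.eventually_nhds_iff_ball.1 h2
    refine ⟨min r r', lt_min hr hr', fun y hy => (h3 y (ball_subset_ball (min_le_right _ _) hy)).1,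
      fun y hy => (h3 y (ball_subset_ball (min_le_right _ _) hy)).2,
      fun w hw' => (h1 w hw').mono (ball_subset_ball (min_le_left _ _))⟩
  have spread : ∀ z ∈ U, ∃ r > 0, ball z r ⊆ U ∧
      ∀ y ∈ ball z r, (∀ᶠ y' in 𝓝 y, P y') → ∀ y' ∈ ball z r, P y' := by
    intro z hzU
    obtain ⟨r, hr, h1, h2, h3⟩ := good z hzU
    refine ⟨r, hr, h1, fun y hy hPy y' hy' => ?_⟩
    have key : ∀ w ∈ ball (F z) (ρ / 2), Φ y' w = Φ y' (F z) := by
      intro w hw'
      have a1 := (h3 w hw').analyticOnNhd isOpen_ball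
      have a2 := (h3 (F z) (mem_ball_self (by positivity))).analyticOnNhd isOpen_ball
      refine a1.eqOn_of_preconnected_of_eventuallyEq a2 (convex_ball z r).isPreconnected hy ?_ hy'
      filter_upwards [hPy, isOpen_ball.mem_nhds hy] with x hx hx'
      have b1 := h2 x hx'
      have b2 : w ∈ ball (F x) ρ := by
        rw [mem_ball] at hw' ⊢
        linarith [dist_triangle w (F z) (F x), dist_comm (F z) (F x)]
      have b3 : F z ∈ ball (F x) ρ := by
        rw [mem_ball, dist_comm]; linarith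
      rw [hx w b2, hx _ b3]
    have b1 := h2 y' hy'
    have a1 := (hw y' (h1 hy')).analyticOnNhd isOpen_ball
    have a2 : AnalyticOnNhd ℂ (fun _ : ℂ => Φ y' (F z)) (ball (F y') ρ) := analyticOnNhd_const
    have hm : F y' ∈ ball (F z) (ρ / 2) := by rw [mem_ball]; linarith
    have e := a1.eqOn_of_preconnected_of_eventuallyEq a2 (convex_ball _ _).isPreconnected
      (mem_ball_self hρ) (by
        filter_upwards [isOpen_ball.mem_nhds hm] with x hx using key x hx)
    intro w hw'
    rw [e hw', e (mem_ball_self hρ)]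
  set A : Set ℂ := {z | ∀ᶠ y in 𝓝 z, P y} with hA
  have hAo : IsOpen A := isOpen_setOfPred_eventually_nhds
  have hsub : U ⊆ A := by
    refine hUc.subset_of_closure_inter_subset hAo ?_ ?_
    · obtain ⟨z, hzV, hzU⟩ := hVU
      refine ⟨z, hzU, ?_⟩
      filter_upwards [(hV.inter hU).mem_nhds ⟨hzV, hzU⟩] with y hy using hconst y hy
    · rintro z ⟨hz1, hz2⟩
      obtain ⟨r, hr, -, h2⟩ := spread z hz2
      obtain ⟨y, hy1, hy2⟩ := Metric.mem_closure_iff.1 hz1 r hr
      have hy : y ∈ ball z r := by rw [mem_ball, dist_comm]; exact hy2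
      filter_upwards [ball_mem_nhds z hr] with x hx using h2 y hy hy1 x hx
  have hall : ∀ z ∈ U, P z := fun z hz' => (hsub hz').self_of_nhds
  refine ⟨hall, fun z hzU => ?_⟩
  obtain ⟨r, hr, h1, h2, h3⟩ := good z hzU
  have d := (h3 (F z) (mem_ball_self (by positivity))).differentiableAt (ball_mem_nhds z hr)
  refine (d.congr_of_eventuallyEq ?_).differentiableWithinAt
  filter_upwards [ball_mem_nhds z hr] with y hy
  refine (hall y (h1 hy) (F z) ?_).symm
  rw [mem_ball, dist_comm]; linarith [h2 y hy]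

/-- bounded holomorphic functions extend across finite sets -/
theorem remove_finite {X : Set ℂ} (hX : X.Finite) : ∀ {U : Set ℂ} (_ : IsOpen U) {f : ℂ → ℂ}
    {M : ℝ}, DifferentiableOn ℂ f (U \ X) → (∀ z ∈ U \ X, ‖f z‖ ≤ M) →
    ∃ g, DifferentiableOn ℂ g U ∧ ∀ z ∈ U \ X, g z = f z := by
  classical
  induction X, hX using Set.Finite.induction_on with
  | empty => intro U _ f M hf _; exact ⟨f, by simpa using hf, fun _ _ => rfl⟩
  | @insert a X ha hX ih =>
    intro U hU f M hf hM
    have hUX : IsOpen (U \ X) := hU.sdiff hX.isClosed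
    have e : U \ insert a X = (U \ X) \ {a} := by
      ext z; simp only [Set.mem_sdiff, mem_insert_iff, mem_singleton_iff]; tauto
    rw [e] at hf hM ⊢
    by_cases haU : a ∈ U
    · have ha' : U \ X ∈ 𝓝 a := hUX.mem_nhds ⟨haU, ha⟩
      have hb : BddAbove (norm ∘ f '' ((U \ X) \ {a})) := ⟨M, by
        rintro _ ⟨z, hz, rfl⟩; exact hM z hz⟩
      have hd := differentiableOn_update_limUnder_of_bddAbove ha' hf hb
      set f' := Function.update f a (limUnder (𝓝[≠] a) f) with hf'
      obtain ⟨g, hg, hg'⟩ := ih hU (M := max M ‖f' a‖) hd (fun z hz => by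
        by_cases hza : z = a
        · rw [hza]; exact le_max_right _ _
        · rw [hf', Function.update_of_ne hza]; exact (hM z ⟨hz, hza⟩).trans (le_max_left _ _))
      refine ⟨g, hg, fun z hz => ?_⟩
      rw [hg' z hz.1, hf', Function.update_of_ne hz.2]
    · have e2 : (U \ X) \ {a} = U \ X := by
        ext z; simp only [Set.mem_sdiff, mem_singleton_iff]
        constructor
        · tauto
        · rintro ⟨h1, h2⟩; exact ⟨⟨h1, h2⟩, fun h => haU (h ▸ h1)⟩
      rw [e2] at hf hM ⊢
      exact ih hU hf hM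

/-- near a flat point the boundary lies on the line -/
theorem flat_bdry {W : Set ℂ} {y : ℂ} {r c s : ℝ} (hs : s = 1 ∨ s = -1)
    (h : ∀ z ∈ ball y r, z ∈ W ↔ 0 < s * ((z - y).im - c * (z - y).re)) {z : ℂ}
    (hz : z ∈ ball y r) (h1 : z ∈ closure W) (h2 : z ∉ W) :
    (z - y).im - c * (z - y).re = 0 := by
  have a1 : ¬ 0 < s * ((z - y).im - c * (z - y).re) := fun h0 => h2 ((h z hz).2 h0)
  have a2 : 0 ≤ s * ((z - y).im - c * (z - y).re) := by
    have hcl : IsClosed {x : ℂ | 0 ≤ s * ((x - y).im - c * (x - y).re)} :=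
      isClosed_le continuous_const (by fun_prop)
    have : z ∈ closure (ball y r ∩ W) := isOpen_ball.inter_closure ⟨hz, h1⟩
    exact closure_minimal (fun x hx => ((h x hx.1).1 hx.2).le) hcl this
  have a3 : s * ((z - y).im - c * (z - y).re) = 0 := le_antisymm (not_lt.1 a1) a2
  rcases hs with rfl | rfl <;> linarith

/-- gluing a function on `W` with a function on the exterior of `W` -/
theorem glue {W X B : Set ℂ} (hW : IsOpen W) (hB : IsOpen B) (hX : X.Finite)
    (hflat : ∀ y ∈ closure W, y ∉ W → y ∉ X → Flat W y) {G Ψ : ℂ → ℂ} {M : ℝ}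
    (hG : DifferentiableOn ℂ G (W ∩ B)) (hΨ : DifferentiableOn ℂ Ψ ((closure W)ᶜ ∩ B))
    (hGc : ∀ y ∈ closure W ∩ B, y ∉ W → y ∉ X → ContinuousWithinAt G (closure W) y)
    (hlim : ∀ y ∈ closure W ∩ B, y ∉ W → y ∉ X → Tendsto Ψ (𝓝[(closure W)ᶜ] y) (𝓝 (G y)))
    (hb : ∀ z ∈ closure W ∩ B, ‖G z‖ ≤ M) (hb' : ∀ z ∈ (closure W)ᶜ ∩ B, ‖Ψ z‖ ≤ M) :
    ∃ H, DifferentiableOn ℂ H B ∧ ∀ z ∈ W ∩ B, H z = G z := by
  classical
  set f : ℂ → ℂ := fun z => if z ∈ closure W then G z else Ψ z with hf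
  have hU : IsOpen (closure W)ᶜ := isClosed_closure.isOpen_compl
  have d1 : ∀ z ∈ W ∩ B, DifferentiableAt ℂ f z := by
    intro z hz
    refine (hG.differentiableAt ((hW.inter hB).mem_nhds hz)).congr_of_eventuallyEq ?_
    filter_upwards [hW.mem_nhds hz.1] with x hx
    simp [hf, subset_closure hx]
  have d2 : ∀ z ∈ (closure W)ᶜ ∩ B, DifferentiableAt ℂ f z := by
    intro z hz
    refine (hΨ.differentiableAt ((hU.inter hB).mem_nhds hz)).congr_of_eventuallyEq ?_
    filter_upwards [hU.mem_nhds hz.1] with x hx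
    have : x ∉ closure W := hx
    simp [hf, this]
  have c1 : ∀ z ∈ B, (z ∈ closure W → z ∉ W → z ∉ X) → ContinuousAt f z := by
    intro z hz hzX
    by_cases h1 : z ∈ closure W
    · by_cases h2 : z ∈ W
      · exact (d1 z ⟨h2, hz⟩).continuousAt
      · have e : f z = G z := by simp [hf, h1]
        rw [ContinuousAt, e, ← nhdsWithin_univ, ← union_compl_self (closure W), nhdsWithin_union,
          tendsto_sup]
        constructor
        · refine (hGc z ⟨h1, hz⟩ h2 (hzX h1 h2)).tendsto.congr' ?_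
          filter_upwards [self_mem_nhdsWithin] with x hx
          simp [hf, hx]
        · refine (hlim z ⟨h1, hz⟩ h2 (hzX h1 h2)).congr' ?_
          filter_upwards [self_mem_nhdsWithin] with x hx
          have : x ∉ closure W := hx
          simp [hf, this]
    · exact (d2 z ⟨h1, hz⟩).continuousAt
  set X' : Set ℂ := X \ W with hX'
  have hX'f : X'.Finite := hX.subset sdiff_subset
  have hd : DifferentiableOn ℂ f (B \ X') := by
    intro y hy
    refine DifferentiableAt.differentiableWithinAt ?_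
    by_cases h1 : y ∈ closure W
    · by_cases h2 : y ∈ W
      · exact d1 y ⟨h2, hy.1⟩
      · have h3 : y ∉ X := fun h => hy.2 ⟨h, h2⟩
        obtain ⟨r, hr, c, s, hs, h⟩ := hflat y h1 h2 h3
        have ho : IsOpen (ball y r ∩ (B \ X')) := isOpen_ball.inter (hB.sdiff hX'f.isClosed)
        have he : (1 + c * I : ℂ) ≠ 0 := fun h0 => by simpa using congrArg re h0
        have := pain (f := f) ho y (1 + c * I) he
          (fun z hz => (c1 z hz.2.1 fun _ a2 a3 => hz.2.2 ⟨a3, a2⟩).continuousWithinAt)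
          (fun z hz => by
            refine DifferentiableAt.differentiableWithinAt ?_
            by_cases a1 : z ∈ closure W
            · by_cases a2 : z ∈ W
              · exact d1 z ⟨a2, hz.1.2.1⟩
              · exfalso
                apply hz.2
                have a3 := flat_bdry hs h hz.1.1 a1 a2
                have a4 : z - y = (z - y).re * (1 + c * I) := by
                  apply Complex.ext
                  · simp
                  · simp only [mul_im, ofReal_re, add_im, one_im, I_im, mul_one, ofReal_im, I_re,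
                      mul_zero, add_zero, zero_add, zero_mul]
                    linarith
                show ((z - y) / (1 + c * I)).im = 0
                rw [a4, mul_div_cancel_right₀ _ he, ofReal_im]
            · exact d2 z ⟨a1, hz.1.2.1⟩)
        exact this.differentiableAt (ho.mem_nhds ⟨mem_ball_self hr, hy⟩)
    · exact d2 y ⟨h1, hy.1⟩
  obtain ⟨g, hg, hg'⟩ := remove_finite hX'f hB (M := M) hd (fun z hz => by
    by_cases h1 : z ∈ closure W
    · simpa [hf, h1] using hb z ⟨h1, hz.1⟩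
    · simpa [hf, h1] using hb' z ⟨h1, hz.1⟩)
  refine ⟨g, hg, fun z hz => ?_⟩
  rw [hg' z ⟨hz.2, fun h => h.2 hz.1⟩]
  simp [hf, subset_closure hz.1]

end Pool.Agent.MP_d32a63_an.H4
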