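import Pool.Agent.MP_d32a63_an.H4.Tools
import Pool.Agent.MP_d32a63_an.H58.Spec

/-! Rows ROOTS and DATA. -/

namespace Pool.Agent.MP_d32a63_an.H4

open Complex Set Metric Filter Topology Polynomial
open Pool.Agent.MP_d32a63_an.H58

theorem fin_pos {ι : Type} {s : Set ι} (hs : s.Finite) {P : ι → ℝ → Prop}
    (hm : ∀ i ∈ s, ∀ a b, 0 < a → a ≤ b → P i b → P i a) (h : ∀ i ∈ s, ∃ a, 0 < a ∧ P i a) :
    ∃ a, 0 < a ∧ ∀ i ∈ s, P i a := by
  have : ∀ᶠ a in 𝓝[>] (0 : ℝ), ∀ i ∈ s, P i a := by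
    refine (eventually_all_finite hs).2 fun i hi => ?_
    obtain ⟨b, hb, hP⟩ := h i hi
    filter_upwards [Ioc_mem_nhdsGT hb] with a ha using hm i hi a b ha.1 ha.2 hP
  obtain ⟨a, ha, ha'⟩ := (this.and self_mem_nhdsWithin).exists
  exact ⟨a, ha', ha⟩

theorem vals_finite : Vals.Finite := by
  have hA : ({-1, 1, (Real.sqrt 3 : ℂ) * I} : Set ℂ).Finite := toFinite _
  have hm : ∀ p, acol p ∈ ({-1, 1, (Real.sqrt 3 : ℂ) * I} : Set ℂ) := by
    intro p; unfold acol; split_ifs <;> simp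
  refine ((hA.image2 (fun a b => a - b) hA).union (hA.image2 (fun a b => (a - b) / 2) hA)).subset ?_
  rintro v ⟨p, q, -, rfl | rfl⟩
  · exact Or.inl (mem_image2_of_mem (hm p) (hm q))
  · exact Or.inr (mem_image2_of_mem (f := fun a b => (a - b) / 2) (hm p) (hm q))

theorem vals_norm (hB : BASIC) {v : ℂ} (hv : v ∈ Vals) : 1 ≤ ‖v‖ ∧ ‖v‖ ≤ 2 := by
  obtain ⟨p, q, hpq, rfl | rfl⟩ := hv
  · rw [hB.ac3 p q hpq]; norm_num
  · rw [norm_div, hB.ac3 p q hpq]; norm_num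

theorem exists_dir {S : Set ℂ} (hS : S.Finite) :
    ∃ ω : ℂ, ‖ω‖ = 1 ∧ ∀ d ∈ S, d ≠ 0 → (ω⁻¹ * d).re ≠ 0 := by
  obtain ⟨t, ht⟩ := (hS.image fun d : ℂ => -d.re / d.im).infinite_compl.nonempty
  set ω0 : ℂ := ⟨1, t⟩ with hω0
  have h0 : ω0 ≠ 0 := fun h => by simpa [hω0] using congrArg re h
  have hn : 0 < ‖ω0‖ := norm_pos_iff.2 h0
  refine ⟨ω0 / (‖ω0‖ : ℝ), by simp [hn.ne'], fun d hd hd0 h => ?_⟩
  have e : (ω0 / (‖ω0‖ : ℝ))⁻¹ * d = ((‖ω0‖⁻¹ : ℝ) : ℂ) * ((starRingEnd ℂ) ω0 * d) := by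
    have h1 : (starRingEnd ℂ) ω0 * ω0 = ((‖ω0‖ : ℝ) : ℂ) ^ 2 := by
      rw [mul_comm, mul_conj, normSq_eq_norm_sq]; push_cast; ring
    have h2 : ((‖ω0‖ : ℝ) : ℂ) ≠ 0 := by exact_mod_cast hn.ne'
    rw [inv_div, ofReal_inv]
    field_simp
    rw [← h1]; ring
  rw [e, re_ofReal_mul] at h
  have h3 : ((starRingEnd ℂ) ω0 * d).re = 0 :=
    (mul_eq_zero.1 h).resolve_left (inv_ne_zero hn.ne')
  have h4 : d.re + t * d.im = 0 := by simpa [hω0] using h3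
  by_cases h5 : d.im = 0
  · apply hd0
    apply Complex.ext
    · simpa [h5] using h4
    · simpa using h5
  · apply ht
    refine ⟨d, hd, ?_⟩
    field_simp
    linarith

theorem roots : R_ROOTS := by
  classical
  intro hB r hr
  have hr0 : r ≠ 0 := by omega
  choose z0 hz0 using fun v : ℂ => IsAlgClosed.exists_pow_nat_eq v (by omega : 0 < r)
  have hθ := Complex.isPrimitiveRoot_exp r hr0
  set θ := cexp (2 * Real.pi * I / r) with hθd
  set base : ℂ → Finset ℂ := fun v => (Finset.range r).image fun k => z0 v * θ ^ k with hbase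
  have hpow : ∀ v, ∀ ζ ∈ base v, ζ ^ r = v := by
    intro v ζ hζ
    obtain ⟨k, -, rfl⟩ := Finset.mem_image.1 hζ
    rw [mul_pow, hz0, ← pow_mul, mul_comm k, pow_mul, hθ.pow_eq_one, one_pow, mul_one]
  have hcard : ∀ v ∈ Vals, (base v).card = r := by
    intro v hv
    have hv0 : z0 v ≠ 0 := by
      intro h
      have := hz0 v
      rw [h, zero_pow hr0] at this
      have h1 := (vals_norm hB hv).1
      rw [← this, norm_zero] at h1; linarith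
    rw [hbase, Finset.card_image_of_injOn, Finset.card_range]
    intro a ha b hb hab
    exact hθ.pow_inj (by simpa using ha) (by simpa using hb) (mul_left_cancel₀ hv0 hab)
  set S : Set ℂ := ⋃ v ∈ Vals, (base v : Set ℂ) with hS
  have hSf : S.Finite := vals_finite.biUnion fun v _ => (base v).finite_toSet
  obtain ⟨ω, hω, hdir⟩ := exists_dir (hSf.image2 (fun a b => a - b) hSf)
  have hω0 : ω ≠ 0 := fun h => by rw [h, norm_zero] at hω; norm_num at hω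
  obtain ⟨c, hc, hcs⟩ := fin_pos (hSf.prod hSf)
    (P := fun p a => a ≤ 1 / 10 ∧ (p.1 ≠ p.2 → 10 * a ≤ |(ω⁻¹ * p.1).re - (ω⁻¹ * p.2).re|))
    (fun p _ a b ha hab h => ⟨hab.trans h.1, fun h' => by linarith [h.2 h']⟩)
    (fun p hp => by
      by_cases h : p.1 = p.2
      · exact ⟨1 / 10, by norm_num, le_rfl, fun h' => absurd h h'⟩
      · have h1 := hdir _ (mem_image2_of_mem hp.1 hp.2) (sub_ne_zero.2 h)
        rw [mul_sub, sub_re] at h1
        have h2 := abs_pos.2 h1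
        refine ⟨min (1 / 10) (|(ω⁻¹ * p.1).re - (ω⁻¹ * p.2).re| / 10), by positivity,
          min_le_left _ _, fun _ => ?_⟩
        linarith [min_le_right (1 / 10) (|(ω⁻¹ * p.1).re - (ω⁻¹ * p.2).re| / 10)])
  set c' := min c (1 / 10) with hc'
  have hc'0 : 0 < c' := by positivity
  have hnorm : ∀ v ∈ Vals, ∀ ζ ∈ base v, ‖ω⁻¹ * ζ‖ ≤ 2 := by
    intro v hv ζ hζ
    rw [norm_mul, norm_inv, hω, inv_one, one_mul]
    by_contra hlt
    push Not at hlt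
    have h1 : ‖ζ‖ ^ 1 ≤ ‖ζ‖ ^ r := pow_le_pow_right₀ (by linarith) hr
    rw [← norm_pow ζ r, hpow v ζ hζ, pow_one] at h1
    linarith [(vals_norm hB hv).2]
  obtain ⟨γ, hγ, hγs⟩ := fin_pos hSf
    (P := fun ζ a => ∀ f : ℂ → ℂ, DifferentiableOn ℂ f (closedBall (ω⁻¹ * ζ) c') →
      (∀ z, ‖z - ω⁻¹ * ζ‖ ≤ c' → ‖f z - ((C ω * X) ^ r - C (ζ ^ r) : ℂ[X]).eval z‖ ≤ a) →
      ∃ z, ‖z - ω⁻¹ * ζ‖ ≤ c' ∧ f z = 0)
    (fun ζ _ a b _ hab h f hf hf' => h f hf fun z hz => (hf' z hz).trans hab)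
    (fun ζ hζ => by
      refine hurwitz (fun h => ?_) (by simp [hω0]) hc'0
      obtain ⟨v, hv, hζv⟩ := mem_iUnion₂.1 hζ
      have h1 := congrArg (eval 0) h
      simp only [eval_sub, eval_pow, eval_mul, eval_C, eval_X, mul_zero, zero_pow hr0, zero_sub,
        eval_zero, neg_eq_zero] at h1
      rw [hpow v ζ hζv] at h1
      have h2 := (vals_norm hB hv).1
      rw [h1, norm_zero] at h2; linarith)
  refine ⟨ω, c', γ, fun v => (base v).image fun ζ => ω⁻¹ * ζ, hω, hc'0, min_le_right _ _, hγ,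
    fun v hv => ⟨?_, fun ξ hξ => ?_⟩, fun v hv v' hv' ξ hξ ξ' hξ' hne => ?_,
    fun v hv ξ hξ h hh => ?_⟩
  · rw [Finset.card_image_of_injective _ (mul_right_injective₀ (inv_ne_zero hω0)), hcard v hv]
  · obtain ⟨ζ, hζ, rfl⟩ := Finset.mem_image.1 hξ
    exact hnorm v hv ζ hζ
  · obtain ⟨ζ, hζ, rfl⟩ := Finset.mem_image.1 hξ
    obtain ⟨ζ', hζ', rfl⟩ := Finset.mem_image.1 hξ'
    have h1 : ζ ≠ ζ' := by
      rintro rfl
      rcases hne with h | h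
      · exact h ((hpow v ζ hζ).symm.trans (hpow v' ζ hζ'))
      · exact h rfl
    have := (hcs (ζ, ζ') ⟨mem_iUnion₂.2 ⟨v, hv, hζ⟩, mem_iUnion₂.2 ⟨v', hv', hζ'⟩⟩).2 h1
    linarith [min_le_left c (1 / 10)]
  · obtain ⟨ζ, hζ, rfl⟩ := Finset.mem_image.1 hξ
    obtain ⟨z, hz, hz'⟩ := hγs ζ (mem_iUnion₂.2 ⟨v, hv, hζ⟩) (fun z => h.eval z)
      h.differentiable.differentiableOn (fun z hz => by
        have h1 := hnorm v hv ζ hζ
        have h2 := norm_add_le (z - ω⁻¹ * ζ) (ω⁻¹ * ζ)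
        rw [sub_add_cancel] at h2
        have := hh z (mem_closedBall_zero_iff.2 (by linarith [min_le_right c (1 / 10)]))
        simpa [hpow v ζ hζ] using this)
    exact ⟨z, hz', hz⟩

/-- the perturbed roots of one difference polynomial -/
theorem one_poly (hB : BASIC) {r N : ℕ} {γ K0 τ ε ℓ c : ℝ} {ω x w aa ab β ξ : ℂ} {Ea Eb : ℂ[X]}
    (hr : 1 ≤ r) (hℓ : 0 < ℓ) (hℓ1 : ℓ ≤ 1 / 10) (hτ : 0 < τ) (_hε : 0 < ε) (hε1 : ε ≤ 1)
    (hN : 0 < N) (hK : 0 < K0) (hsig : τ / N = ε * (ℓ / 8) ^ r) (da : Ea.natDegree ≤ 2 * r)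
    (db : Eb.natDegree ≤ 2 * r)
    (ba : ∀ z ∈ closedBall x 2, ‖Ea.eval z‖ ≤ K0) (bb : ∀ z ∈ closedBall x 2, ‖Eb.eval z‖ ≤ K0)
    (na : ∀ z ∈ closedBall x (3 * ℓ), ‖Ea.eval z - (w + τ * aa)‖ ≤ γ / 4 * τ)
    (nb : ∀ z ∈ closedBall x (3 * ℓ), ‖Eb.eval z - (w + τ * ab)‖ ≤ γ / 4 * τ)
    (hβ : 1 ≤ ‖β‖) (hℓ0 : ℓ ≤ τ * γ / (8 * r * K0)) (hc : c ≤ 1 / 10) (hξ : ‖ξ‖ ≤ 2)
    (H : ∀ h : ℂ[X], (∀ z ∈ closedBall (0 : ℂ) 3,
      ‖h.eval z - ((ω * z) ^ r - (aa - ab) / β)‖ ≤ γ) → ∃ ξ', h.eval ξ' = 0 ∧ ‖ξ' - ξ‖ ≤ c) :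
    ∃ ξ' : ℂ, ‖ξ' - ξ‖ ≤ c ∧
      (trunc r x (C ((N : ℂ)⁻¹) * (Eb - Ea) + C ((ε : ℂ) * β) * upol r ω x)).eval
        (x + (ℓ / 8 : ℝ) * ξ') = 0 ∧
      ‖(C ((N : ℂ)⁻¹) * (Eb - Ea) + C ((ε : ℂ) * β) * upol r ω x).eval (x + (ℓ / 8 : ℝ) * ξ')‖ ≤
        4 * r * K0 / τ * ℓ ^ (2 * r + 1) := by
  have hr0 : (0 : ℝ) < r := by exact_mod_cast hr
  have hN0 : (0 : ℝ) < N := by exact_mod_cast hN
  have hβ0 : β ≠ 0 := fun h => by rw [h, norm_zero] at hβ; linarith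
  set Δ := Eb - Ea with hΔ
  have hΔd : Δ.natDegree ≤ 2 * r := (natDegree_sub_le _ _).trans (max_le db da)
  have hΔb : ∀ u ∈ closedBall x 1, ‖Δ.eval u‖ ≤ 2 * K0 := fun u hu => by
    have hu' : u ∈ closedBall x 2 := closedBall_subset_closedBall (by norm_num) hu
    rw [hΔ, eval_sub]
    linarith [norm_sub_le (Eb.eval u) (Ea.eval u), ba u hu', bb u hu']
  have htr : trunc r x (C ((N : ℂ)⁻¹) * Δ + C ((ε : ℂ) * β) * upol r ω x) =
      C ((N : ℂ)⁻¹) * trunc r x Δ + C ((ε : ℂ) * β) * upol r ω x := by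
    rw [hB.tadd, hB.tmul, hB.tmul, hB.full _ r x (hB.upd r ω x).1]
  have hpt : ∀ z : ℂ, ‖z‖ ≤ 3 → ‖x + (ℓ / 8 : ℝ) * z - x‖ ≤ ℓ := fun z hz => by
    rw [add_sub_cancel_left, norm_mul, norm_real, Real.norm_of_nonneg (by positivity)]
    nlinarith
  have htail : ∀ z : ℂ, ‖z‖ ≤ 3 → ‖(Δ - trunc r x Δ).eval (x + (ℓ / 8 : ℝ) * z)‖ ≤
      4 * r * K0 * ℓ ^ (r + 1) := fun z hz => by
    have h1 := hpt z hz
    have := hB.tail r (2 * r) x Δ (2 * K0) _ hΔd hΔb (h1.trans (by linarith))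
    refine this.trans ?_
    push_cast
    calc 2 * (r : ℝ) * (2 * K0) * ‖x + ℓ / 8 * z - x‖ ^ (r + 1)
        ≤ 2 * (r : ℝ) * (2 * K0) * ℓ ^ (r + 1) := by
          gcongr; simpa using h1
      _ = _ := by ring
  have hsC : (τ : ℂ) / N = ε * ((ℓ / 8 : ℝ) : ℂ) ^ r := by exact_mod_cast hsig
  have hτC : (τ : ℂ) ≠ 0 := by exact_mod_cast hτ.ne'
  have hNC : (N : ℂ) ≠ 0 := by exact_mod_cast hN.ne'
  obtain ⟨ξ', h0, h1⟩ := H (C (N / (τ * β)) *
      (C ((N : ℂ)⁻¹) * trunc r x Δ + C ((ε : ℂ) * β) * upol r ω x).comp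
        (C x + C ((ℓ / 8 : ℝ) : ℂ) * X)) (fun z hz => by
    have hz' : ‖z‖ ≤ 3 := mem_closedBall_zero_iff.1 hz
    set p := x + (ℓ / 8 : ℝ) * z with hp
    have e : eval z (C (N / (τ * β)) *
        (C ((N : ℂ)⁻¹) * trunc r x Δ + C ((ε : ℂ) * β) * upol r ω x).comp
          (C x + C ((ℓ / 8 : ℝ) : ℂ) * X)) - ((ω * z) ^ r - (aa - ab) / β) =
        ((Eb.eval p - (w + τ * ab)) - (Ea.eval p - (w + τ * aa)) - (Δ - trunc r x Δ).eval p) /
          (τ * β) := by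
      rw [eval_mul, eval_comp]
      simp only [eval_C, eval_add, eval_mul, eval_X, upol, eval_pow, eval_sub, hΔ, ← hp]
      have e1 : (ω * (p - x)) ^ r = ((ℓ / 8 : ℝ) : ℂ) ^ r * (ω * z) ^ r := by
        rw [← mul_pow, hp]; congr 1; ring
      have e2 : (ε : ℂ) * β * (ω * (p - x)) ^ r = τ / N * β * (ω * z) ^ r := by
        rw [e1, hsC]; ring
      rw [e2]
      field_simp
      ring
    rw [e, norm_div, norm_mul, norm_real, Real.norm_of_nonneg hτ.le,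
      div_le_iff₀ (by positivity)]
    have hpm : p ∈ closedBall x (3 * ℓ) := by
      rw [mem_closedBall, dist_eq_norm]; linarith [hpt z hz']
    have a1 := na p hpm
    have a2 := nb p hpm
    have a3 := htail z hz'
    have a4 : ℓ ^ (r + 1) ≤ ℓ := by
      calc ℓ ^ (r + 1) ≤ ℓ ^ 1 := pow_le_pow_of_le_one hℓ.le (by linarith) (by omega)
        _ = ℓ := pow_one _
    have a5 : 4 * r * K0 * ℓ ^ (r + 1) ≤ γ / 2 * τ := by
      rw [le_div_iff₀ (by positivity)] at hℓ0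
      calc 4 * r * K0 * ℓ ^ (r + 1) ≤ 4 * r * K0 * ℓ := by gcongr
        _ ≤ _ := by linarith
    have a6 := norm_sub_le ((Eb.eval p - (w + τ * ab)) - (Ea.eval p - (w + τ * aa)))
      ((Δ - trunc r x Δ).eval p)
    have a7 := norm_sub_le (Eb.eval p - (w + τ * ab)) (Ea.eval p - (w + τ * aa))
    have a8 : 0 ≤ γ * τ := by linarith [norm_nonneg (Ea.eval p - (w + τ * aa))]
    have a9 : γ * τ * 1 ≤ γ * τ * ‖β‖ := mul_le_mul_of_nonneg_left hβ a8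
    linarith)
  have hξ' : ‖ξ'‖ ≤ 3 := by
    have := norm_add_le (ξ' - ξ) ξ
    rw [sub_add_cancel] at this; linarith
  have h2 : (C ((N : ℂ)⁻¹) * trunc r x Δ + C ((ε : ℂ) * β) * upol r ω x).eval
      (x + (ℓ / 8 : ℝ) * ξ') = 0 := by
    rw [eval_mul, eval_C, eval_comp] at h0
    have := (mul_eq_zero.1 h0).resolve_left (div_ne_zero hNC (mul_ne_zero hτC hβ0))
    simpa only [eval_add (p := C x), eval_C, eval_mul (p := C ((ℓ / 8 : ℝ) : ℂ)), eval_X] using this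
  refine ⟨ξ', h1, by rw [htr]; exact h2, ?_⟩
  have e : (C ((N : ℂ)⁻¹) * Δ + C ((ε : ℂ) * β) * upol r ω x).eval (x + (ℓ / 8 : ℝ) * ξ') =
      (N : ℂ)⁻¹ * (Δ - trunc r x Δ).eval (x + (ℓ / 8 : ℝ) * ξ') := by
    simp only [eval_add, eval_mul, eval_C, eval_sub] at h2 ⊢
    linear_combination h2
  rw [e, norm_mul, norm_inv, norm_natCast]
  have b1 : (N : ℝ)⁻¹ ≤ ℓ ^ r / τ := by
    rw [le_div_iff₀ hτ, mul_comm, ← div_eq_mul_inv, hsig]
    calc ε * (ℓ / 8) ^ r ≤ 1 * ℓ ^ r := by gcongr; linarith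
      _ = _ := one_mul _
  calc (N : ℝ)⁻¹ * ‖(Δ - trunc r x Δ).eval (x + (ℓ / 8 : ℝ) * ξ')‖
      ≤ ℓ ^ r / τ * (4 * r * K0 * ℓ ^ (r + 1)) :=
        mul_le_mul b1 (htail ξ' hξ') (norm_nonneg _) (by positivity)
    _ = _ := by field_simp; ring

theorem data : R_DATA := by
  classical
  intro hB r hr ⟨ω, c, γ, Mod, hω, hc, hc1, hγ, hM1, hM2, hM3⟩
  have hr0 : (0 : ℝ) < r := by exact_mod_cast hr
  refine ⟨c, γ / 4, ω, hc, hc1, by positivity, hω, fun K0 τ hK hτ =>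
    ⟨τ * γ / (8 * r * K0), 4 * r * K0 / τ, by positivity, by positivity, ?_⟩⟩
  intro N ε ℓ x w i E0 E1 E2 hD hℓ0
  set Ea : Fin 6 → ℂ[X] := ![E0, E0, E0, E0, E1, E1] with hEa
  set Eb : Fin 6 → ℂ[X] := ![E1, E1, E2, E2, E2, E2] with hEb
  set pa : Fin 6 → ℤ := ![i - 1, i - 1, i - 1, i - 1, i + 1, i + 1] with hpa
  set pb : Fin 6 → ℤ := ![i + 1, i + 1, i, i, i, i] with hpb
  set β : Fin 6 → ℂ := ![1, -2, -1, 2, 1, -2] with hβ
  set v : Fin 6 → ℂ := fun j => (acol (pa j) - acol (pb j)) / β j with hv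
  set q : Fin 6 → ℂ[X] := fun j =>
    C ((N : ℂ)⁻¹) * (Eb j - Ea j) + C ((ε : ℂ) * β j) * upol r ω x with hq
  have n1 := hB.ac3 (i - 1) (i + 1) (by omega)
  have n2 := hB.ac3 (i - 1) i (by omega)
  have n3 := hB.ac3 (i + 1) i (by omega)
  have hvV : ∀ j, v j ∈ Vals := by
    intro j
    fin_cases j
    · exact ⟨i - 1, i + 1, by omega, Or.inl (by simp [hv, hpa, hpb, hβ])⟩
    · exact ⟨i + 1, i - 1, by omega, Or.inr (by simp [hv, hpa, hpb, hβ]; ring)⟩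
    · exact ⟨i, i - 1, by omega, Or.inl (by simp [hv, hpa, hpb, hβ]; ring)⟩
    · exact ⟨i - 1, i, by omega, Or.inr (by simp [hv, hpa, hpb, hβ])⟩
    · exact ⟨i + 1, i, by omega, Or.inl (by simp [hv, hpa, hpb, hβ])⟩
    · exact ⟨i, i + 1, by omega, Or.inr (by simp [hv, hpa, hpb, hβ]; ring)⟩
  have hvinj : Function.Injective v := by
    set P := acol (i - 1) - acol (i + 1) with hP
    set Q := acol i - acol (i - 1) with hQ
    have nQ : ‖Q‖ = 2 := by rw [hQ, norm_sub_rev]; exact n2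
    have nR : ‖P + Q‖ = 2 := by
      rw [show P + Q = -(acol (i + 1) - acol i) by rw [hP, hQ]; ring, norm_neg]; exact n3
    have hvv : v = ![P, -P / 2, Q, -Q / 2, -(P + Q), (P + Q) / 2] := by
      funext j
      fin_cases j <;> simp [hv, hpa, hpb, hβ, hP, hQ] <;> ring
    have k1 : ∀ (a b : ℂ) (s : ℝ), ‖a‖ = 2 → ‖b‖ = 2 → |s| ≠ 1 → a ≠ s * b := by
      intro a b s ha hb hs h
      rw [h, norm_mul, hb, norm_real, Real.norm_eq_abs] at ha
      exact hs (by linarith)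
    have t2 : |(-2 : ℝ)| ≠ 1 := by norm_num
    have t3 : |(-1 / 2 : ℝ)| ≠ 1 := by rw [abs_of_neg (by norm_num)]; norm_num
    have t4 : |(2 : ℝ)| ≠ 1 := by norm_num
    have t5 : |(1 / 2 : ℝ)| ≠ 1 := by rw [abs_of_pos (by norm_num)]; norm_num
    have f1 := k1 P P _ n1 n1 t2
    have f2 := k1 Q Q _ nQ nQ t2
    have f3 := k1 _ _ _ nR nR t2
    have f4 := k1 P Q _ n1 nQ t2
    have f5 := k1 Q P _ nQ n1 t2
    have f6 := k1 _ P _ nR n1 t4
    have f7 := k1 P _ _ n1 nR t4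
    have f8 := k1 _ Q _ nR nQ t4
    have f9 := k1 Q _ _ nQ nR t4
    push_cast at f1 f2 f3 f4 f5 f6 f7 f8 f9
    rw [hvv]
    intro a b hab
    fin_cases a <;> fin_cases b <;> simp only [Fin.zero_eta, Fin.mk_one, Fin.reduceFinMk,
      Matrix.cons_val] at hab ⊢ <;> exfalso <;>
      first
        | exact f1 (by linear_combination (-2) * hab) | exact f1 (by linear_combination 2 * hab)
        | exact f2 (by linear_combination (-2) * hab) | exact f2 (by linear_combination 2 * hab)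
        | exact f3 (by linear_combination (-2) * hab) | exact f3 (by linear_combination 2 * hab)
        | exact f4 (by linear_combination (-2) * hab) | exact f4 (by linear_combination 2 * hab)
        | exact f5 (by linear_combination (-2) * hab) | exact f5 (by linear_combination 2 * hab)
        | exact f6 (by linear_combination (-2) * hab) | exact f6 (by linear_combination 2 * hab)
        | exact f7 (by linear_combination (-2) * hab) | exact f7 (by linear_combination 2 * hab)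
        | exact f8 (by linear_combination (-2) * hab) | exact f8 (by linear_combination 2 * hab)
        | exact f9 (by linear_combination (-2) * hab) | exact f9 (by linear_combination 2 * hab)
        | exact f4 (by linear_combination (-1) * hab) | exact f4 (by linear_combination hab)
        | exact f5 (by linear_combination (-1) * hab) | exact f5 (by linear_combination hab)
        | exact f6 (by linear_combination (-1) * hab) | exact f6 (by linear_combination hab)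
  have hone : ∀ j, ∀ ξ ∈ Mod (v j), ∃ ξ' : ℂ, ‖ξ' - ξ‖ ≤ c ∧
      (trunc r x (q j)).eval (x + (ℓ / 8 : ℝ) * ξ') = 0 ∧
      ‖(q j).eval (x + (ℓ / 8 : ℝ) * ξ')‖ ≤ 4 * r * K0 / τ * ℓ ^ (2 * r + 1) := by
    intro j ξ hξ
    refine one_poly hB (w := w) (aa := acol (pa j)) (ab := acol (pb j)) hr hD.l0 hD.l1 hτ hD.e0
      hD.e1 hD.N0 hK hD.sig ?_ ?_ ?_ ?_ ?_ ?_ ?_ hℓ0 hc1 ((hM1 _ (hvV j)).2 ξ hξ)
      (hM3 _ (hvV j) ξ hξ)
    · fin_cases j <;> first | exact hD.d0 | exact hD.d1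
    · fin_cases j <;> first | exact hD.d1 | exact hD.d2
    · fin_cases j <;> first | exact fun z hz => (hD.bd z hz).1 | exact fun z hz => (hD.bd z hz).2.1
    · fin_cases j <;>
        first | exact fun z hz => (hD.bd z hz).2.1 | exact fun z hz => (hD.bd z hz).2.2
    · fin_cases j <;>
        first | exact fun z hz => (hD.near z hz).1 | exact fun z hz => (hD.near z hz).2.1
    · fin_cases j <;>
        first | exact fun z hz => (hD.near z hz).2.1 | exact fun z hz => (hD.near z hz).2.2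
    · fin_cases j <;> simp [hβ]
  choose! ρ hρ using hone
  have hℓ := hD.l0
  set L : Fin 6 → Finset ℂ := fun j => (Mod (v j)).image fun ξ => x + (ℓ / 8 : ℝ) * ρ j ξ with hL
  have hsep : ∀ j j', ∀ ξ ∈ Mod (v j), ∀ ξ' ∈ Mod (v j'), (j ≠ j' ∨ ξ ≠ ξ') →
      c * ℓ ≤ |(x + (ℓ / 8 : ℝ) * ρ j ξ).re - (x + (ℓ / 8 : ℝ) * ρ j' ξ').re| := by
    intro j j' ξ hξ ξ' hξ' hne
    have h1 := hM2 _ (hvV j) _ (hvV j') ξ hξ ξ' hξ' (hne.imp_left fun h h' => h (hvinj h'))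
    have h2 := (abs_re_le_norm _).trans (hρ j ξ hξ).1
    have h3 := (abs_re_le_norm _).trans (hρ j' ξ' hξ').1
    rw [sub_re] at h2 h3
    have e : (x + (ℓ / 8 : ℝ) * ρ j ξ).re - (x + (ℓ / 8 : ℝ) * ρ j' ξ').re =
        ℓ / 8 * ((ρ j ξ).re - (ρ j' ξ').re) := by
      rw [add_re, add_re, re_ofReal_mul, re_ofReal_mul]; ring
    rw [e, abs_mul, abs_of_pos (by positivity : 0 < ℓ / 8)]
    have h4 : 8 * c ≤ |(ρ j ξ).re - (ρ j' ξ').re| := by
      have := abs_sub_abs_le_abs_sub (ξ.re - ξ'.re) (((ρ j' ξ').re - ξ'.re) - ((ρ j ξ).re - ξ.re))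
      have h5 := abs_sub ((ρ j' ξ').re - ξ'.re) ((ρ j ξ).re - ξ.re)
      rw [show ξ.re - ξ'.re - (((ρ j' ξ').re - ξ'.re) - ((ρ j ξ).re - ξ.re)) =
        (ρ j ξ).re - (ρ j' ξ').re by ring] at this
      linarith
    nlinarith
  have hbox : ∀ j, ∀ ζ ∈ L j, ‖ζ - x‖ ≤ ℓ / 3 := by
    intro j ζ hζ
    obtain ⟨ξ, hξ, rfl⟩ := Finset.mem_image.1 hζ
    rw [add_sub_cancel_left, norm_mul, norm_real, Real.norm_of_nonneg (by positivity)]
    have h1 := norm_add_le (ρ j ξ - ξ) ξ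
    rw [sub_add_cancel] at h1
    have h2 := (hρ j ξ hξ).1
    have h3 := (hM1 _ (hvV j)).2 ξ hξ
    nlinarith
  have hsepL : ∀ j j', ∀ ζ ∈ L j, ∀ ζ' ∈ L j', ζ ≠ ζ' → c * ℓ ≤ |ζ.re - ζ'.re| := by
    intro j j' ζ hζ ζ' hζ' hne
    obtain ⟨ξ, hξ, rfl⟩ := Finset.mem_image.1 hζ
    obtain ⟨ξ', hξ', rfl⟩ := Finset.mem_image.1 hζ'
    refine hsep j j' ξ hξ ξ' hξ' ?_
    by_contra hn
    push Not at hn
    exact hne (by rw [hn.1, hn.2])
  have hPts : ∀ j, Pts r c ℓ x (L j) := by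
    intro j
    refine ⟨?_, hbox j, fun ζ hζ ζ' hζ' hne => (hsepL j j ζ hζ ζ' hζ' hne).trans ?_⟩
    · rw [hL, Finset.card_image_of_injOn, (hM1 _ (hvV j)).1]
      intro ξ hξ ξ' hξ' h
      by_contra hne
      have := hsep j j ξ hξ ξ' hξ' (Or.inr hne)
      simp only at h
      rw [h, sub_self, abs_zero] at this
      nlinarith
    · rw [← sub_re]; exact abs_re_le_norm _
  set T := tnode N E0 E1 E2 ε (upol r ω x) with hT
  have hex : ∀ m m', Nb m m' → ∃ j, T m' - T m = q j := by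
    rintro ⟨a, b⟩ m' h
    have gen : ∀ (m' : ℤ × ℤ) (j : Fin 6),
        ebar N E0 E1 E2 m' - ebar N E0 E1 E2 (a, b) = C ((N : ℂ)⁻¹) * (Eb j - Ea j) →
        ((((m'.1 - m'.2) % 3 : ℤ) : ℂ) - (((a - b) % 3 : ℤ) : ℂ) = β j) → T m' - T (a, b) = q j := by
      intro m' j h1 h2
      simp only [hT, hq, tnode]
      rw [← h1, ← h2, mul_sub, C_sub]; ring
    have g1 : ebar N E0 E1 E2 (a + 1, b) - ebar N E0 E1 E2 (a, b) = C ((N : ℂ)⁻¹) * (E1 - E0) := by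
      simp only [ebar, Int.cast_add, Int.cast_one, C_sub, C_add, C_1]; ring
    have g2 : ebar N E0 E1 E2 (a, b + 1) - ebar N E0 E1 E2 (a, b) = C ((N : ℂ)⁻¹) * (E2 - E0) := by
      simp only [ebar, Int.cast_add, Int.cast_one, C_sub, C_add, C_1]; ring
    have g3 : ebar N E0 E1 E2 (a - 1, b + 1) - ebar N E0 E1 E2 (a, b) =
        C ((N : ℂ)⁻¹) * (E2 - E1) := by
      simp only [ebar, Int.cast_add, Int.cast_sub, Int.cast_one, C_sub, C_add, C_1]; ring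
    rcases h with rfl | rfl | rfl
    · have : (a + 1 - b) % 3 - (a - b) % 3 = 1 ∨ (a + 1 - b) % 3 - (a - b) % 3 = -2 := by omega
      rcases this with h | h
      · exact ⟨0, gen _ _ g1 (by rw [← Int.cast_sub]; simp only []; rw [h]; simp [hβ])⟩
      · exact ⟨1, gen _ _ g1 (by rw [← Int.cast_sub]; simp only []; rw [h]; simp [hβ])⟩
    · have : (a - (b + 1)) % 3 - (a - b) % 3 = -1 ∨ (a - (b + 1)) % 3 - (a - b) % 3 = 2 := by omega
      rcases this with h | h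
      · exact ⟨2, gen _ _ g2 (by rw [← Int.cast_sub]; simp only []; rw [h]; simp [hβ])⟩
      · exact ⟨3, gen _ _ g2 (by rw [← Int.cast_sub]; simp only []; rw [h]; simp [hβ])⟩
    · have : (a - 1 - (b + 1)) % 3 - (a - b) % 3 = 1 ∨
          (a - 1 - (b + 1)) % 3 - (a - b) % 3 = -2 := by omega
      rcases this with h | h
      · exact ⟨4, gen _ _ g3 (by rw [← Int.cast_sub]; simp only []; rw [h]; simp [hβ])⟩
      · exact ⟨5, gen _ _ g3 (by rw [← Int.cast_sub]; simp only []; rw [h]; simp [hβ])⟩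
  choose! J hJ using hex
  refine ⟨Finset.univ.biUnion L, fun m m' => L (J m m'), fun ζ hζ => ?_,
    fun ζ hζ ζ' hζ' hne => ?_, fun m m' h => ⟨hPts _, fun ζ hζ => ?_⟩, fun m m' h ζ hζ => ⟨?_, ?_⟩⟩
  · obtain ⟨j, -, hj⟩ := Finset.mem_biUnion.1 hζ
    exact hbox j ζ hj
  · obtain ⟨j, -, hj⟩ := Finset.mem_biUnion.1 hζ
    obtain ⟨j', -, hj'⟩ := Finset.mem_biUnion.1 hζ'
    exact hsepL j j' ζ hj ζ' hj' hne
  · obtain ⟨ξ, hξ, rfl⟩ := Finset.mem_image.1 hζ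
    rw [hJ m m' h]; exact (hρ _ ξ hξ).2.1
  · exact Finset.mem_biUnion.2 ⟨_, Finset.mem_univ _, hζ⟩
  · obtain ⟨ξ, hξ, rfl⟩ := Finset.mem_image.1 hζ
    rw [hJ m m' h]; exact (hρ _ ξ hξ).2.2

end Pool.Agent.MP_d32a63_an.H4
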