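import Mathlib

/-! Approximate Cauchy-Goursat theorem on rectangles for approximately holomorphic fields. -/

namespace Pool.Agent.MP_d32a63_an.H4

open Complex Set intervalIntegral

/-- closed rectangle -/
def Rect (x0 x1 y0 y1 : ℝ) : Set ℂ := {w | x0 ≤ w.re ∧ w.re ≤ x1 ∧ y0 ≤ w.im ∧ w.im ≤ y1}

/-- boundary integral over a rectangle -/
noncomputable def RI (f : ℂ → ℂ) (x0 x1 y0 y1 : ℝ) : ℂ :=
  (∫ x : ℝ in x0..x1, f (x + y0 * I)) - (∫ x : ℝ in x0..x1, f (x + y1 * I)) +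
    I • (∫ y : ℝ in y0..y1, f (x1 + y * I)) - I • ∫ y : ℝ in y0..y1, f (x0 + y * I)

/-- first order field with complex slope `c`, exact up to scale `σ` -/
def Fld (h c : ℂ → ℂ) (K σ : ℝ) (R : Set ℂ) : Prop :=
  ∀ w ∈ R, ∀ w' ∈ R, ‖h w' - h w - c w * (w' - w)‖ ≤ K * (‖w' - w‖ + σ) ^ 2

theorem Fld.mono {h c : ℂ → ℂ} {K σ : ℝ} {R R' : Set ℂ} (H : Fld h c K σ R) (hs : R' ⊆ R) :
    Fld h c K σ R' := fun w hw w' hw' => H w (hs hw) w' (hs hw')

theorem iiH {f : ℂ → ℂ} (hf : Continuous f) (y a b : ℝ) :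
    IntervalIntegrable (fun x : ℝ => f (x + y * I)) MeasureTheory.volume a b :=
  (hf.comp (by fun_prop)).intervalIntegrable a b

theorem iiV {f : ℂ → ℂ} (hf : Continuous f) (x a b : ℝ) :
    IntervalIntegrable (fun y : ℝ => f (x + y * I)) MeasureTheory.volume a b :=
  (hf.comp (by fun_prop)).intervalIntegrable a b

theorem RI_add_x {f : ℂ → ℂ} (hf : Continuous f) (x0 x1 x2 y0 y1 : ℝ) :
    RI f x0 x2 y0 y1 = RI f x0 x1 y0 y1 + RI f x1 x2 y0 y1 := by
  unfold RI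
  rw [← integral_add_adjacent_intervals (iiH hf y0 x0 x1) (iiH hf y0 x1 x2),
    ← integral_add_adjacent_intervals (iiH hf y1 x0 x1) (iiH hf y1 x1 x2)]
  simp only [smul_eq_mul]; ring

theorem RI_add_y {f : ℂ → ℂ} (hf : Continuous f) (x0 x1 y0 y1 y2 : ℝ) :
    RI f x0 x1 y0 y2 = RI f x0 x1 y0 y1 + RI f x0 x1 y1 y2 := by
  unfold RI
  rw [← integral_add_adjacent_intervals (iiV hf x0 y0 y1) (iiV hf x0 y1 y2),
    ← integral_add_adjacent_intervals (iiV hf x1 y0 y1) (iiV hf x1 y1 y2)]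
  simp only [smul_eq_mul]; ring

theorem RI_add {f g : ℂ → ℂ} (hf : Continuous f) (hg : Continuous g) (x0 x1 y0 y1 : ℝ) :
    RI (fun w => f w + g w) x0 x1 y0 y1 = RI f x0 x1 y0 y1 + RI g x0 x1 y0 y1 := by
  unfold RI
  rw [integral_add (iiH hf _ _ _) (iiH hg _ _ _), integral_add (iiH hf _ _ _) (iiH hg _ _ _),
    integral_add (iiV hf _ _ _) (iiV hg _ _ _), integral_add (iiV hf _ _ _) (iiV hg _ _ _)]
  simp only [smul_eq_mul]; ring

theorem RI_zero {f : ℂ → ℂ} {x0 x1 y0 y1 : ℝ} (hx : x0 ≤ x1) (hy : y0 ≤ y1)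
    (hf : DifferentiableOn ℂ f (Rect x0 x1 y0 y1)) : RI f x0 x1 y0 y1 = 0 := by
  have := integral_boundary_rect_eq_zero_of_differentiableOn f ⟨x0, y0⟩ ⟨x1, y1⟩ (hf.mono ?_)
  · simpa [RI] using this
  · intro w hw
    rw [mem_reProdIm] at hw
    simp only [uIcc_of_le hx, uIcc_of_le hy, mem_Icc] at hw
    exact ⟨hw.1.1, hw.1.2, hw.2.1, hw.2.2⟩

/-- side by side bound -/
theorem RI_le {f : ℂ → ℂ} {x0 x1 y0 y1 : ℝ} (hx : x0 ≤ x1) (hy : y0 ≤ y1) {B1 B2 B3 B4 : ℝ}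
    (h1 : ∀ x : ℝ, x0 ≤ x → x ≤ x1 → ‖f (x + y0 * I)‖ ≤ B1)
    (h2 : ∀ x : ℝ, x0 ≤ x → x ≤ x1 → ‖f (x + y1 * I)‖ ≤ B2)
    (h3 : ∀ y : ℝ, y0 ≤ y → y ≤ y1 → ‖f (x1 + y * I)‖ ≤ B3)
    (h4 : ∀ y : ℝ, y0 ≤ y → y ≤ y1 → ‖f (x0 + y * I)‖ ≤ B4) :
    ‖RI f x0 x1 y0 y1‖ ≤ (B1 + B2) * (x1 - x0) + (B3 + B4) * (y1 - y0) := by
  have e1 := norm_integral_le_of_norm_le_const (a := x0) (b := x1) (C := B1)
    (f := fun x : ℝ => f (x + y0 * I)) (fun x hx' => by
      rw [uIoc_of_le hx] at hx'; exact h1 x hx'.1.le hx'.2)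
  have e2 := norm_integral_le_of_norm_le_const (a := x0) (b := x1) (C := B2)
    (f := fun x : ℝ => f (x + y1 * I)) (fun x hx' => by
      rw [uIoc_of_le hx] at hx'; exact h2 x hx'.1.le hx'.2)
  have e3 := norm_integral_le_of_norm_le_const (a := y0) (b := y1) (C := B3)
    (f := fun y : ℝ => f (x1 + y * I)) (fun x hx' => by
      rw [uIoc_of_le hy] at hx'; exact h3 x hx'.1.le hx'.2)
  have e4 := norm_integral_le_of_norm_le_const (a := y0) (b := y1) (C := B4)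
    (f := fun y : ℝ => f (x0 + y * I)) (fun x hx' => by
      rw [uIoc_of_le hy] at hx'; exact h4 x hx'.1.le hx'.2)
  rw [abs_of_nonneg (sub_nonneg.2 hx)] at e1 e2
  rw [abs_of_nonneg (sub_nonneg.2 hy)] at e3 e4
  unfold RI
  refine (norm_sub_le _ _).trans ?_
  refine (add_le_add_left (norm_add_le _ _) _).trans ?_
  have := norm_sub_le (∫ x : ℝ in x0..x1, f (x + y0 * I)) (∫ x : ℝ in x0..x1, f (x + y1 * I))
  simp only [norm_smul, norm_I, one_mul]
  nlinarith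

theorem RI_le' {f : ℂ → ℂ} {x0 x1 y0 y1 : ℝ} (hx : x0 ≤ x1) (hy : y0 ≤ y1) {B : ℝ}
    (h : ∀ w ∈ Rect x0 x1 y0 y1, ‖f w‖ ≤ B) :
    ‖RI f x0 x1 y0 y1‖ ≤ 2 * B * ((x1 - x0) + (y1 - y0)) := by
  have := RI_le (f := f) hx hy (B1 := B) (B2 := B) (B3 := B) (B4 := B)
    (fun x a b => h _ (by simp [Rect, a, b, hy])) (fun x a b => h _ (by simp [Rect, a, b, hy]))
    (fun x a b => h _ (by simp [Rect, a, b, hx])) (fun x a b => h _ (by simp [Rect, a, b, hx]))
  linarith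

/-- additive interval functions that are small on short intervals -/
theorem add_bound {F : ℝ → ℝ → ℂ} {lo hi σ B : ℝ} (hσ : 0 < σ) (hB : 0 ≤ B)
    (hadd : ∀ a b c, F a c = F a b + F b c)
    (hs : ∀ a b, lo ≤ a → a ≤ b → b ≤ hi → b - a ≤ σ → ‖F a b‖ ≤ B) :
    ∀ a b, lo ≤ a → a ≤ b → b ≤ hi → ‖F a b‖ ≤ B * ((b - a + σ) / σ) := by
  have key : ∀ k : ℕ, ∀ a b, lo ≤ a → a ≤ b → b ≤ hi → b - a ≤ (k + 1) * σ →
      ‖F a b‖ ≤ B * (k + 1) := by
    intro k
    induction k with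
    | zero => intro a b h1 h2 h3 h4; simpa using hs a b h1 h2 h3 (by simpa using h4)
    | succ k ih =>
      intro a b h1 h2 h3 h4
      by_cases hc : b - a ≤ σ
      · have := hs a b h1 h2 h3 hc
        have hk : (0 : ℝ) ≤ k := Nat.cast_nonneg k
        push_cast
        nlinarith
      · push Not at hc
        rw [hadd a (a + σ) b]
        have e1 := hs a (a + σ) h1 (by linarith) (by linarith) (by linarith)
        have e2 := ih (a + σ) b (by linarith) (by linarith) h3 (by push_cast at h4; linarith)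
        refine (norm_add_le _ _).trans ?_
        push_cast
        linarith
  intro a b h1 h2 h3
  have h0 : 0 ≤ (b - a) / σ := div_nonneg (by linarith) hσ.le
  have hf := Nat.lt_floor_add_one ((b - a) / σ)
  have hf' := Nat.floor_le h0
  have := key ⌊(b - a) / σ⌋₊ a b h1 h2 h3 (by
    rw [div_lt_iff₀ hσ] at hf; linarith)
  refine this.trans (mul_le_mul_of_nonneg_left ?_ hB)
  rw [add_div, div_self hσ.ne']
  linarith

theorem norm_le_of_rect {x0 x1 y0 y1 : ℝ} {w w' : ℂ} (hw : w ∈ Rect x0 x1 y0 y1)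
    (hw' : w' ∈ Rect x0 x1 y0 y1) : ‖w' - w‖ ≤ (x1 - x0) + (y1 - y0) := by
  refine (norm_le_abs_re_add_abs_im _).trans ?_
  obtain ⟨a, b, c, d⟩ := hw
  obtain ⟨a', b', c', d'⟩ := hw'
  have e1 : |(w' - w).re| ≤ x1 - x0 := by rw [abs_le]; simp; constructor <;> linarith
  have e2 : |(w' - w).im| ≤ y1 - y0 := by rw [abs_le]; simp; constructor <;> linarith
  linarith

/-- approximate Cauchy-Goursat -/
theorem cg {f c φ : ℂ → ℂ} {K σ P x0 x1 y0 y1 : ℝ} (hf : Continuous f) (hφ : Continuous φ)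
    (hσ : 0 < σ) (hK : 0 ≤ K) (hP : 0 ≤ P) (hx : x0 ≤ x1) (hy : y0 ≤ y1)
    (hd : DifferentiableOn ℂ φ (Rect x0 x1 y0 y1)) (hb : ∀ w ∈ Rect x0 x1 y0 y1, ‖φ w‖ ≤ P)
    (hF : Fld f c K σ (Rect x0 x1 y0 y1)) :
    ‖RI (fun w => f w * φ w) x0 x1 y0 y1‖ ≤
      36 * K * σ * P * ((x1 - x0 + σ) * (y1 - y0 + σ)) := by
  have hc : Continuous fun w => f w * φ w := hf.mul hφ
  have base : ∀ a b a' b', x0 ≤ a → a ≤ b → b ≤ x1 → b - a ≤ σ → y0 ≤ a' → a' ≤ b' → b' ≤ y1 →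
      b' - a' ≤ σ → ‖RI (fun w => f w * φ w) a b a' b'‖ ≤ 36 * K * σ ^ 3 * P := by
    intro a b a' b' h1 h2 h3 h4 h5 h6 h7 h8
    have hsub : Rect a b a' b' ⊆ Rect x0 x1 y0 y1 := fun w hw =>
      ⟨h1.trans hw.1, hw.2.1.trans h3, h5.trans hw.2.2.1, hw.2.2.2.trans h7⟩
    set p : ℂ := ⟨a, a'⟩ with hp
    have hpm : p ∈ Rect a b a' b' := ⟨le_rfl, h2, le_rfl, h6⟩
    have e : (fun w => f w * φ w) = fun w => (f w - f p - c p * (w - p)) * φ w +
        (f p + c p * (w - p)) * φ w := by funext w; ring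
    rw [e, RI_add (by fun_prop) (by fun_prop), RI_zero (f := fun w => (f p + c p * (w - p)) * φ w)
      h2 h6 (DifferentiableOn.mul (by fun_prop) (hd.mono hsub)), add_zero]
    have := RI_le' (f := fun w => (f w - f p - c p * (w - p)) * φ w) h2 h6
      (B := K * (3 * σ) ^ 2 * P) (fun w hw => by
        rw [norm_mul]
        have h9 := hF p (hsub hpm) w (hsub hw)
        have h10 := norm_le_of_rect hpm hw
        have h11 : K * (‖w - p‖ + σ) ^ 2 ≤ K * (3 * σ) ^ 2 := by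
          gcongr; linarith
        exact mul_le_mul (h9.trans h11) (hb w (hsub hw)) (norm_nonneg _) (by positivity))
    refine this.trans ?_
    have : (b - a) + (b' - a') ≤ 2 * σ := by linarith
    calc 2 * (K * (3 * σ) ^ 2 * P) * ((b - a) + (b' - a'))
        ≤ 2 * (K * (3 * σ) ^ 2 * P) * (2 * σ) := by gcongr
      _ = 36 * K * σ ^ 3 * P := by ring
  have row : ∀ a' b', y0 ≤ a' → a' ≤ b' → b' ≤ y1 → b' - a' ≤ σ →
      ‖RI (fun w => f w * φ w) x0 x1 a' b'‖ ≤ 36 * K * σ ^ 3 * P * ((x1 - x0 + σ) / σ) := by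
    intro a' b' h5 h6 h7 h8
    exact add_bound (F := fun a b => RI (fun w => f w * φ w) a b a' b') (lo := x0) (hi := x1) hσ
      (by positivity) (fun a b c => RI_add_x hc a b c a' b')
      (fun a b h1 h2 h3 h4 => base a b a' b' h1 h2 h3 h4 h5 h6 h7 h8) x0 x1 le_rfl hx le_rfl
  have hx' : 0 ≤ x1 - x0 + σ := by linarith
  have := add_bound (F := fun a b => RI (fun w => f w * φ w) x0 x1 a b) (lo := y0) (hi := y1) hσ
      (by positivity) (fun a b c => RI_add_y hc x0 x1 a b c) row y0 y1 le_rfl hy le_rfl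
  refine this.trans (le_of_eq ?_)
  field_simp

theorem isClosed_rect (x0 x1 y0 y1 : ℝ) : IsClosed (Rect x0 x1 y0 y1) := by
  unfold Rect
  simp only [Set.ofPred_and]
  exact (isClosed_le continuous_const continuous_re).inter
    ((isClosed_le continuous_re continuous_const).inter
      ((isClosed_le continuous_const continuous_im).inter
        (isClosed_le continuous_im continuous_const)))

/-- a field has a continuous version -/
theorem exists_cont {h c : ℂ → ℂ} {K σ : ℝ} {R : Set ℂ} (hR : IsClosed R) (hσ : 0 < σ)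
    (hK : 0 ≤ K) (hF : Fld h c K σ R) :
    ∃ f : ℂ → ℂ, Continuous f ∧ (∀ w ∈ R, ‖f w - h w‖ ≤ 4 * K * σ ^ 2) ∧
      Fld f c (9 * K) σ R := by
  classical
  obtain ⟨g, hg⟩ := exists_continuous_forall_mem_convex_of_local (X := ℂ) (E := ℂ)
    (t := fun w => if w ∈ R then Metric.closedBall (h w) (4 * K * σ ^ 2) else univ)
    (fun w => by
      by_cases hw : w ∈ R
      · simp only [hw, if_true]; exact convex_closedBall _ _
      · simp only [hw, if_false]; exact convex_univ)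
    (fun x => by
      by_cases hx : x ∈ R
      · refine ⟨Metric.ball x σ, Metric.ball_mem_nhds x hσ, fun w => h x + c x * (w - x),
          by fun_prop, fun y hy => ?_⟩
        by_cases hy' : y ∈ R
        · simp only [hy', if_true, Metric.mem_closedBall, dist_eq_norm]
          have h1 := hF x hx y hy'
          rw [Metric.mem_ball, dist_eq_norm] at hy
          have h2 : K * (‖y - x‖ + σ) ^ 2 ≤ K * (2 * σ) ^ 2 := by gcongr; linarith
          rw [← norm_neg]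
          have e : -(h x + c x * (y - x) - h y) = h y - h x - c x * (y - x) := by ring
          rw [e]; nlinarith
        · simp [hy']
      · refine ⟨Rᶜ, hR.isOpen_compl.mem_nhds hx, fun _ => 0, continuousOn_const, fun y hy => ?_⟩
        have : y ∉ R := hy
        simp [this])
  have h1 : ∀ w ∈ R, ‖g w - h w‖ ≤ 4 * K * σ ^ 2 := fun w hw => by
    have := hg w
    simpa [hw, dist_eq_norm] using this
  refine ⟨g, g.continuous, h1, fun w hw w' hw' => ?_⟩
  have e : g w' - g w - c w * (w' - w) =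
      (g w' - h w') - (g w - h w) + (h w' - h w - c w * (w' - w)) := by ring
  rw [e]
  have h2 := norm_add_le ((g w' - h w') - (g w - h w)) (h w' - h w - c w * (w' - w))
  have h3 := norm_sub_le (g w' - h w') (g w - h w)
  have h4 := hF w hw w' hw'
  have h5 : σ ^ 2 ≤ (‖w' - w‖ + σ) ^ 2 := by gcongr; linarith [norm_nonneg (w' - w)]
  have h6 := mul_le_mul_of_nonneg_left h5 hK
  linarith [h1 w hw, h1 w' hw']

end Pool.Agent.MP_d32a63_an.H4
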