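import Pool.Agent.MP_d32a63_an.H4.TC
import Pool.Agent.MP_d32a63_an.H4.Glue
import Pool.Agent.MP_d32a63_an.H58.Spec

/-! Rows TC, DIV, UL, GLUE. -/

namespace Pool.Agent.MP_d32a63_an.H4

open Complex Set Metric Filter Topology Polynomial
open Pool.Agent.MP_d32a63_an.H95 (W0 Flat)
open Pool.Agent.MP_d32a63_an.H58

theorem tc2 {a b y1 y2 : ℝ} (ha : 0 < a) (h1 : 0 < y1) (h12 : y1 ≤ y2) (h2 : y2 < b) :
    ∃ α : ℝ, 0 < α ∧ ∃ C : ℝ, 0 < C ∧ ∀ (h c : ℂ → ℂ) (K σ : ℝ), 0 < σ → 0 ≤ K →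
      Fld h c K σ (Rect (-a) a 0 b) → (∀ w ∈ Rect (-a) a 0 b, ‖h w‖ ≤ K) →
      (∀ x : ℝ, |x| ≤ a → ‖h x‖ ≤ K * σ) →
      ∀ w0 ∈ Rect (-(a / 2)) (a / 2) y1 y2, ‖h w0‖ ≤ C * K * σ ^ α := by
  obtain ⟨α, hα, C, hC, H⟩ := tc' ha h1 h12 h2
  refine ⟨α, hα, C + 1, by positivity, fun h c K σ a1 a3 a4 a5 a6 w0 hw => ?_⟩
  have hp : 0 < σ ^ α := Real.rpow_pos_of_pos a1 _
  by_cases hσ : σ ≤ 1
  · refine (H h c K σ a1 hσ a3 a4 a5 a6 w0 hw).trans ?_
    gcongr; linarith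
  · have e1 : 1 ≤ σ ^ α := Real.one_le_rpow (not_le.1 hσ).le hα.le
    have e2 := a5 w0 ⟨by linarith [hw.1], by linarith [hw.2.1], by linarith [hw.2.2.1],
      by linarith [hw.2.2.2]⟩
    calc ‖h w0‖ ≤ 1 * K * 1 := by linarith
      _ ≤ (C + 1) * K * σ ^ α := by gcongr; linarith

theorem rect_eq (x0 x1 y0 y1 : ℝ) : Icc x0 x1 ×ℂ Icc y0 y1 = Rect x0 x1 y0 y1 := by
  ext w; simp [mem_reProdIm, Rect, and_assoc]

theorem rowTC : TC := by
  intro a b y1 y2 ha h1 h12 h2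
  obtain ⟨α, hα, C, hC, H⟩ := tc2 ha h1 h12 h2
  refine ⟨α, C, hα, hC, fun K s g μ hK hs hW hb w hw => ?_⟩
  rw [rect_eq] at hW hw
  exact H g μ K s hs hK hW.tay hW.bg (fun x hx => hb x (abs_le.1 hx)) w hw

/-- Lagrange bound for a finite set of nodes. -/
theorem lagF {r : ℕ} (Z : Finset ℂ) (hZ : Z.card = r) {s d A : ℝ} (hs : 0 < s)
    (hsep : ∀ ζ ∈ Z, ∀ ζ' ∈ Z, ζ ≠ ζ' → s ≤ ‖ζ - ζ'‖) (R : ℂ[X]) (hR : R.degree < r)
    (hA : ∀ ζ ∈ Z, ‖R.eval ζ‖ ≤ A) (z : ℂ) (hz : ∀ ζ ∈ Z, ‖z - ζ‖ ≤ d) :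
    ‖R.eval z‖ ≤ r * A * (d / s) ^ (r - 1) := by
  have e := (Z.equivFinOfCardEq hZ).symm
  refine lag (fun i => (e i : ℂ)) hs (fun i j hij => hsep _ (e i).2 _ (e j).2 fun h => hij ?_) R hR
    (fun i => hA _ (e i).2) z (fun i => hz _ (e i).2)
  exact e.injective (Subtype.ext h)

theorem rowLAG : LAG := by
  intro r c hr hc
  refine ⟨r * (4 / c) ^ (r - 1), by positivity, fun ℓ x Z R δ hℓ hP hR hδ z hz => ?_⟩
  have := lagF Z hP.card (s := c * ℓ) (d := 4 * ℓ) (by positivity) hP.sep R hR hδ z (fun ζ hζ => by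
    have h1 := hP.box ζ hζ
    rw [mem_closedBall, dist_eq_norm] at hz
    have h2 := norm_sub_le (z - x) (ζ - x)
    rw [sub_sub_sub_cancel_right] at h2
    linarith)
  rw [mul_div_mul_right _ _ hℓ.ne'] at this
  linarith

theorem rowDIV : DIV := by
  intro r c hr hc
  obtain ⟨C1, hC1, H1⟩ := rowLAG r c hr hc
  refine ⟨C1 + (1 + r * (2 / c) ^ (r - 1)) * 2 ^ r, by positivity, ?_⟩
  intro ℓ x Z q D ε δ M hℓ hℓ1 hP hq hqZ hε hεq hD hM hδ hδM
  have hc0 : q.coeff r ≠ 0 := by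
    intro h; rw [h, norm_zero] at hεq; linarith
  have hqd : q.degree = r := degree_eq_of_le_of_coeff_ne_zero (degree_le_of_natDegree_le hq) hc0
  obtain ⟨μ, R, hDR, hμ, hR⟩ := divide q D hqd hD
  have hRe : D - q * μ = R := by rw [hDR]; ring
  have hRZ : ∀ ζ ∈ Z, ‖R.eval ζ‖ ≤ δ := fun ζ hζ => by
    have := hδ ζ hζ
    rwa [hDR, eval_add, eval_mul, hqZ ζ hζ, zero_mul, zero_add] at this
  have hM0 : 0 ≤ M := (norm_nonneg _).trans (hM x (mem_closedBall_self zero_le_one))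
  have hδ0 : 0 ≤ δ := by
    obtain ⟨ζ, hζ⟩ : Z.Nonempty := Finset.card_pos.1 (by rw [hP.card]; omega)
    exact (norm_nonneg _).trans (hδ ζ hζ)
  have hnod : q = C (q.coeff r) * Lagrange.nodal Z id := by
    have hm : (Lagrange.nodal Z id : ℂ[X]).Monic := Lagrange.nodal_monic
    have hd : (Lagrange.nodal Z id : ℂ[X]).degree = r := by rw [Lagrange.degree_nodal, hP.card]
    have hd' : (C (q.coeff r) * Lagrange.nodal Z id).degree = r := by
      rw [degree_C_mul hc0, hd]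
    rw [← sub_eq_zero]
    refine eq_zero_of_degree_lt_of_eval_finset_eq_zero Z ?_ fun ζ hζ => ?_
    · rw [hP.card, ← hqd]
      refine degree_sub_lt_left (hqd.trans hd'.symm) (fun h => hc0 (by rw [h]; simp)) ?_
      rw [leadingCoeff_mul, leadingCoeff_C, hm.leadingCoeff, mul_one, leadingCoeff,
        natDegree_eq_of_degree_eq_some hqd]
    · rw [eval_sub, eval_mul, hqZ ζ hζ]
      have := Lagrange.eval_nodal_at_node (s := Z) (v := id) hζ
      simp only [id] at this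
      rw [this]; simp
  refine ⟨μ, hμ, fun z hz => ?_, fun z hz => ?_⟩
  · rw [hRe]
    refine (H1 ℓ x Z R δ hℓ hP hR hRZ z hz).trans ?_
    gcongr
    have : 0 ≤ (1 + r * (2 / c) ^ (r - 1)) * 2 ^ r := by positivity
    linarith
  · rw [mem_closedBall, dist_eq_norm] at hz
    have key : ‖μ.eval z‖ ≤ (1 + r * (2 / c) ^ (r - 1)) * 2 ^ r * M / ε := by
      refine maxmod (f := fun z => μ.eval z) one_pos μ.differentiable.differentiableOn
        (fun u hu => ?_) hz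
      have hfar : ∀ ζ ∈ Z, 1 / 2 ≤ ‖u - ζ‖ ∧ ‖u - ζ‖ ≤ 2 := fun ζ hζ => by
        have h1 := hP.box ζ hζ
        have h2 := norm_sub_le (u - x) (ζ - x)
        have h3 := norm_sub_norm_le (u - x) (ζ - x)
        rw [sub_sub_sub_cancel_right] at h2 h3
        constructor <;> linarith
      have hq1 : ε * (1 / 2) ^ r ≤ ‖q.eval u‖ := by
        rw [hnod, eval_mul, eval_C, norm_mul, Lagrange.eval_nodal, norm_prod]
        refine mul_le_mul hεq ?_ (by positivity) (norm_nonneg _)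
        rw [← hP.card, ← Finset.prod_const]
        exact Finset.prod_le_prod (fun _ _ => by norm_num) fun ζ hζ => (hfar ζ hζ).1
      have hR1 := lagF Z hP.card (s := c * ℓ) (d := 2) (by positivity) hP.sep R hR hRZ u
        (fun ζ hζ => (hfar ζ hζ).2)
      have hR2 : r * δ * (2 / (c * ℓ)) ^ (r - 1) ≤ r * (2 / c) ^ (r - 1) * M := by
        calc r * δ * (2 / (c * ℓ)) ^ (r - 1) ≤ r * (M * ℓ ^ (r - 1)) * (2 / (c * ℓ)) ^ (r - 1) := by
              gcongr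
          _ = r * (ℓ * (2 / (c * ℓ))) ^ (r - 1) * M := by rw [mul_pow]; ring
          _ = r * (2 / c) ^ (r - 1) * M := by congr 3; field_simp
      have h1 : ‖q.eval u‖ * ‖μ.eval u‖ ≤ (1 + r * (2 / c) ^ (r - 1)) * M := by
        have e : q.eval u * μ.eval u = D.eval u - R.eval u := by rw [hDR]; simp
        rw [← norm_mul, e]
        have := hM u (by rw [mem_closedBall, dist_eq_norm, hu])
        have h4 := norm_sub_le (D.eval u) (R.eval u)
        linarith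
      have h2 : ε * (1 / 2) ^ r * ‖μ.eval u‖ ≤ (1 + r * (2 / c) ^ (r - 1)) * M :=
        (mul_le_mul_of_nonneg_right hq1 (norm_nonneg _)).trans h1
      rw [le_div_iff₀ hε]
      have h3 : (1 / 2 : ℝ) ^ r * 2 ^ r = 1 := by rw [← mul_pow]; norm_num
      calc ‖μ.eval u‖ * ε = ε * (1 / 2) ^ r * ‖μ.eval u‖ * 2 ^ r := by
            rw [mul_right_comm (ε * _), mul_assoc ε, h3]; ring
        _ ≤ (1 + r * (2 / c) ^ (r - 1)) * M * 2 ^ r := by gcongr
        _ = _ := by ring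
    refine key.trans ?_
    gcongr; linarith

theorem rowDiv : R_DIV := ⟨rowLAG, rowDIV⟩

theorem rowULa : UL := by
  intro l g u A L s hl hA hs hpt hlip
  have hu : ∀ x ∈ A, ∀ y ∈ A, ‖u x - u y‖ ≤ L * ‖x - y‖ := by
    intro x hx y hy
    have h1 : Tendsto (fun J => ‖g J x - g J y‖) l (𝓝 ‖u x - u y‖) :=
      ((hpt x hx).sub (hpt y hy)).norm
    have h2 : Tendsto (fun J => L * (‖x - y‖ + s J)) l (𝓝 (L * (‖x - y‖ + 0))) :=
      (tendsto_const_nhds.add hs).const_mul L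
    rw [add_zero] at h2
    exact le_of_tendsto_of_tendsto h1 h2 (hlip.mono fun J hJ => hJ x hx y hy)
  refine ⟨?_, hu⟩
  rw [Metric.tendstoUniformlyOn_iff]
  intro ε hε
  set δ : ℝ := ε / (4 * (|L| + 1)) with hδ
  have hL : 0 < |L| + 1 := by positivity
  have hδ0 : 0 < δ := by positivity
  have hLδ : |L| * δ < ε / 4 := by
    rw [hδ, mul_div_assoc', div_lt_div_iff₀ (by positivity) (by positivity)]
    nlinarith
  have htb : TotallyBounded A := hA.isCompact_closure.totallyBounded.subset subset_closure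
  obtain ⟨t, htA, htf, hcov⟩ := Metric.finite_approx_of_totallyBounded htb δ hδ0
  have e1 : ∀ᶠ J in l, ∀ y ∈ t, dist (g J y) (u y) < ε / 4 :=
    (eventually_all_finite htf).2 fun y hy =>
      Metric.tendsto_nhds.1 (hpt y (htA hy)) _ (by positivity)
  have e2 : ∀ᶠ J in l, dist (s J) 0 < δ := Metric.tendsto_nhds.1 hs _ hδ0
  filter_upwards [e1, e2, hlip] with J h1 h2 h3 x hx
  obtain ⟨y, hy, hxy⟩ := mem_iUnion₂.1 (hcov hx)
  rw [mem_ball, dist_eq_norm] at hxy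
  rw [Real.dist_eq, sub_zero] at h2
  have a1 := h1 y hy
  have a2 := h3 x hx y (htA hy)
  have a3 := hu x hx y (htA hy)
  rw [dist_eq_norm] at a1 ⊢
  have a4 : L * (‖x - y‖ + s J) ≤ |L| * (2 * δ) := by
    refine (le_abs_self _).trans ?_
    rw [abs_mul]
    gcongr
    refine (abs_add_le _ _).trans ?_
    rw [abs_norm]; linarith
  have a5 : L * ‖x - y‖ ≤ |L| * δ := by
    refine (le_abs_self _).trans ?_
    rw [abs_mul, abs_norm]
    gcongr
  have e : u x - g J x = (u x - u y) - (g J y - u y) - (g J x - g J y) := by ring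
  rw [e]
  have a6 := norm_sub_le ((u x - u y) - (g J y - u y)) (g J x - g J y)
  have a7 := norm_sub_le (u x - u y) (g J y - u y)
  linarith

theorem rowPAIN : PAIN := by
  intro u z0 ω x r hω hc hd
  refine pain isOpen_ball z0 ω⁻¹ (inv_ne_zero hω) hc fun z hz => ?_
  refine (hd z hz.1 fun h => hz.2 ?_).differentiableWithinAt
  show ((z - z0) / ω⁻¹).im = 0
  rwa [div_inv_eq_mul]

theorem rowCLOP : CLOP := by
  intro U B ctr t φ hU hUc hB hUB hctr ht hw hz hconst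
  refine clopen hU hUc hctr.continuousOn ht hw (fun z hzU => ?_) hB (by rwa [inter_comm])
    fun z hz' w hw' => hconst z hz'.2 hz'.1 w hw' _ (mem_ball_self ht)
  have h2 : ∀ᶠ z' in 𝓝 z, z' ∈ U ∧ dist (ctr z') (ctr z) < t / 2 :=
    Filter.Eventually.and (hU.mem_nhds hzU)
      (Metric.tendsto_nhds.1 hctr.continuousAt _ (by positivity))
  obtain ⟨r, hr, h3⟩ := Metric.eventually_nhds_iff_ball.1 h2
  refine ⟨r, hr, fun w hw' y hy => (hz y (h3 y hy).1 w ?_).differentiableWithinAt⟩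
  rw [mem_ball] at hw' ⊢
  linarith [dist_triangle w (ctr z) (ctr y), dist_comm (ctr z) (ctr y), (h3 y hy).2]

theorem rowUL : R_UL := ⟨rowULa, rowPAIN, rowCLOP⟩

theorem rowGlue : R_GLUE := by
  intro _ W P g ψ M hW h0 hP hg hψ hb hb' hbd z0 hz0 hz2
  obtain ⟨H, hH, hHg⟩ := glue (B := ball 0 3) (M := M) hW isOpen_ball hP
    (fun y a1 a2 a3 => (hbd y a1 a2 a3).1) hg (hψ.mono inter_subset_left)
    (fun y a1 a2 a3 => (hbd y a1.1 a2 a3).2.1) (fun y a1 a2 a3 => (hbd y a1.1 a2 a3).2.2)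
    (fun z hz => hb z hz.1 (by simpa using (mem_ball_zero_iff.1 hz.2).le))
    (fun z hz => hb' z hz.1)
  have hd : DifferentiableOn ℂ H (closedBall 0 (5 / 2)) :=
    hH.mono (closedBall_subset_ball (by norm_num))
  have hc := hd.circleIntegral_sub_inv_smul (w := z0) (mem_ball_zero_iff.2 (by linarith))
  have e : (∮ ζ in C(0, 5 / 2), (ζ - z0)⁻¹ * g ζ) = ∮ ζ in C(0, 5 / 2), (ζ - z0)⁻¹ • H ζ := by
    refine circleIntegral.integral_congr (by norm_num) fun ζ hζ => ?_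
    have h1 : ‖ζ‖ = 5 / 2 := by simpa using hζ
    have h2 : ζ ∈ W := h0 (by
      have := norm_le_abs_re_add_abs_im ζ
      show 1 < |ζ.re| + |ζ.im|
      linarith)
    simp only [smul_eq_mul]
    rw [hHg ζ ⟨h2, mem_ball_zero_iff.2 (by linarith)⟩]
  unfold H58.cau
  rw [e, hc, ← hHg z0 ⟨hz0, mem_ball_zero_iff.2 (by linarith)⟩, smul_eq_mul, ← mul_assoc,
    inv_mul_cancel₀ (by simp [Real.pi_ne_zero]), one_mul]

end Pool.Agent.MP_d32a63_an.H4
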