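import Mathlib

/-! Tools: Painleve, Lagrange bound, minimum modulus, Hurwitz, division with bounds. -/

namespace Pool.Agent.MP_d32a63_an.H4

open Complex Set Polynomial Metric

theorem pain_real {f : ℂ → ℂ} {U : Set ℂ} (hU : IsOpen U) (hc : ContinuousOn f U)
    (hd : DifferentiableOn ℂ f (U \ {z | z.im = 0})) : DifferentiableOn ℂ f U := by
  refine (isConservativeOn_and_continuousOn_iff_isDifferentiableOn hU).1 ⟨?_, hc⟩
  have base : ∀ z w : ℂ, Rectangle z w ⊆ U → ¬ (min z.im w.im < 0 ∧ 0 < max z.im w.im) →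
      (∫ x : ℝ in z.re..w.re, f (x + z.im * I)) - (∫ x : ℝ in z.re..w.re, f (x + w.im * I)) +
      I • (∫ y : ℝ in z.im..w.im, f (w.re + y * I)) -
      I • (∫ y : ℝ in z.im..w.im, f (z.re + y * I)) = 0 := by
    intro z w hzw hn
    refine integral_boundary_rect_eq_zero_of_continuousOn_of_differentiableOn f z w
      (hc.mono hzw) (hd.mono fun x hx => ⟨hzw ?_, fun h0 => hn ?_⟩)
    · exact ⟨Ioo_subset_Icc_self hx.1, Ioo_subset_Icc_self hx.2⟩
    · have h1 : x.im = 0 := h0
      have h2 := hx.2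
      rw [mem_preimage, h1] at h2
      exact h2
  intro z w hzw
  rw [← add_eq_zero_iff_eq_neg, wedgeIntegral_add_wedgeIntegral_eq]
  by_cases hn : min z.im w.im < 0 ∧ 0 < max z.im w.im
  · have h0 : (0 : ℝ) ∈ uIcc z.im w.im := ⟨hn.1.le, hn.2.le⟩
    have s1 : uIcc z.im 0 ⊆ uIcc z.im w.im := uIcc_subset_uIcc left_mem_uIcc h0
    have s2 : uIcc 0 w.im ⊆ uIcc z.im w.im := uIcc_subset_uIcc h0 right_mem_uIcc
    have e1 := base z ⟨w.re, 0⟩ (fun x hx => hzw ⟨hx.1, s1 hx.2⟩) (by
      simp only [not_and, not_lt]; intro h; simp at h; simp [h.le])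
    have e2 := base ⟨z.re, 0⟩ w (fun x hx => hzw ⟨hx.1, s2 hx.2⟩) (by
      simp only [not_and, not_lt]; intro h; simp at h; simp [h.le])
    have ii : ∀ x : ℝ, x ∈ uIcc z.re w.re → ∀ a b : ℝ, uIcc a b ⊆ uIcc z.im w.im →
        IntervalIntegrable (fun y : ℝ => f (x + y * I)) MeasureTheory.volume a b := by
      intro x hx a b hab
      refine ContinuousOn.intervalIntegrable (hc.comp (by fun_prop) fun y hy => hzw ?_)
      refine ⟨?_, ?_⟩
      · simpa using hx
      · simpa using hab hy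
    rw [← intervalIntegral.integral_add_adjacent_intervals (ii _ right_mem_uIcc _ _ s1)
      (ii _ right_mem_uIcc _ _ s2), ← intervalIntegral.integral_add_adjacent_intervals
      (ii _ left_mem_uIcc _ _ s1) (ii _ left_mem_uIcc _ _ s2)]
    simp only [smul_eq_mul] at e1 e2 ⊢
    linear_combination e1 + e2
  · exact base z w hzw hn

/-- Painleve: a continuous function that is holomorphic off a line is holomorphic. -/
theorem pain {f : ℂ → ℂ} {U : Set ℂ} (hU : IsOpen U) (p e : ℂ) (he : e ≠ 0)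
    (hc : ContinuousOn f U) (hd : DifferentiableOn ℂ f (U \ {z | ((z - p) / e).im = 0})) :
    DifferentiableOn ℂ f U := by
  have h1 : DifferentiableOn ℂ (fun w => f (p + e * w)) ((fun w => p + e * w) ⁻¹' U) := by
    refine pain_real (hU.preimage (by fun_prop)) (hc.comp (by fun_prop) fun w hw => hw) ?_
    refine hd.comp (by fun_prop) fun w hw => ⟨hw.1, fun h0 => hw.2 ?_⟩
    have : ((p + e * w - p) / e).im = 0 := h0
    rw [add_sub_cancel_left, mul_div_cancel_left₀ _ he] at this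
    exact this
  have h2 : DifferentiableOn ℂ (fun z => f (p + e * ((z - p) / e))) U := by
    refine h1.comp (f := fun z => (z - p) / e) (by fun_prop) fun z hz => ?_
    have : p + e * ((z - p) / e) = z := by field_simp; ring
    simpa [this] using hz
  refine h2.congr fun z _ => ?_
  congr 1; field_simp; ring

/-- Lagrange bound. -/
theorem lag {r : ℕ} (ξ : Fin r → ℂ) {s d A : ℝ} (hs : 0 < s)
    (hsep : ∀ i j, i ≠ j → s ≤ ‖ξ i - ξ j‖) (R : ℂ[X]) (hR : R.degree < r)
    (hA : ∀ i, ‖R.eval (ξ i)‖ ≤ A) (z : ℂ) (hz : ∀ i, ‖z - ξ i‖ ≤ d) :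
    ‖R.eval z‖ ≤ r * A * (d / s) ^ (r - 1) := by
  classical
  have hinj : Set.InjOn ξ (Finset.univ : Finset (Fin r)) := by
    intro i _ j _ hij
    by_contra hne
    have := hsep i j hne
    rw [hij, sub_self, norm_zero] at this; linarith
  have e := Lagrange.eq_interpolate (f := R) hinj (by simpa using hR)
  rw [e, Lagrange.interpolate_apply, eval_finsetSum]
  refine (norm_sum_le _ _).trans ?_
  have : ∀ i ∈ (Finset.univ : Finset (Fin r)),
      ‖eval z (C (R.eval (ξ i)) * Lagrange.basis Finset.univ ξ i)‖ ≤ A * (d / s) ^ (r - 1) := by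
    intro i _
    rw [eval_mul, eval_C, norm_mul]
    refine mul_le_mul (hA i) ?_ (norm_nonneg _) ((norm_nonneg _).trans (hA i))
    unfold Lagrange.basis
    rw [eval_prod, norm_prod]
    have hcard : (Finset.univ.erase i).card = r - 1 := by simp
    rw [← hcard, ← Finset.prod_const]
    refine Finset.prod_le_prod (fun _ _ => norm_nonneg _) fun j hj => ?_
    have hji : i ≠ j := (Finset.ne_of_mem_erase hj).symm
    unfold Lagrange.basisDivisor
    rw [eval_mul, eval_C, eval_sub, eval_X, eval_C, norm_mul, norm_inv, mul_comm, ← div_eq_mul_inv]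
    exact div_le_div₀ ((norm_nonneg _).trans (hz j)) (hz j) hs (hsep i j hji)
  refine (Finset.sum_le_sum this).trans (le_of_eq ?_)
  simp; ring

/-- Maximum modulus on a closed disc. -/
theorem maxmod {f : ℂ → ℂ} {c : ℂ} {ρ B : ℝ} (hρ : 0 < ρ)
    (hf : DifferentiableOn ℂ f (closedBall c ρ)) (hB : ∀ z, ‖z - c‖ = ρ → ‖f z‖ ≤ B) {z : ℂ}
    (hz : ‖z - c‖ ≤ ρ) : ‖f z‖ ≤ B := by
  have hcl : closure (ball c ρ) = closedBall c ρ := closure_ball c hρ.ne'
  refine norm_le_of_forall_mem_frontier_norm_le (U := ball c ρ) isBounded_ball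
    (DifferentiableOn.diffContOnCl (by rwa [hcl])) (fun w hw => hB w ?_) ?_
  · rw [frontier_ball c hρ.ne'] at hw
    simpa [dist_eq_norm] using hw
  · rw [hcl]; simpa [dist_eq_norm] using hz

/-- Minimum modulus: a zero exists when the value at the centre is smaller than on the circle. -/
theorem minmod {f : ℂ → ℂ} {c : ℂ} {ρ M : ℝ} (hρ : 0 < ρ)
    (hf : DifferentiableOn ℂ f (closedBall c ρ)) (hM : ∀ z, ‖z - c‖ = ρ → M ≤ ‖f z‖)
    (hc : ‖f c‖ < M) : ∃ z, ‖z - c‖ ≤ ρ ∧ f z = 0 := by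
  by_contra hn
  push Not at hn
  have hM0 : 0 < M := (norm_nonneg _).trans_lt hc
  have h0 : ‖c - c‖ ≤ ρ := by simpa using hρ.le
  have := maxmod (f := fun z => (f z)⁻¹) (B := M⁻¹) hρ
    (hf.inv fun z hz => hn z (by simpa [dist_eq_norm] using hz))
    (fun z hz => by rw [norm_inv]; exact inv_anti₀ hM0 (hM z hz)) h0
  rw [norm_inv] at this
  have h1 : 0 < ‖f c‖ := norm_pos_iff.2 (hn c h0)
  have := (inv_le_inv₀ h1 hM0).1 this
  linarith

/-- Hurwitz for a polynomial model. -/
theorem hurwitz {p : ℂ[X]} (hp : p ≠ 0) {c : ℂ} (hc : p.eval c = 0) {δ : ℝ} (hδ : 0 < δ) :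
    ∃ η : ℝ, 0 < η ∧ ∀ f : ℂ → ℂ, DifferentiableOn ℂ f (closedBall c δ) →
      (∀ z, ‖z - c‖ ≤ δ → ‖f z - p.eval z‖ ≤ η) → ∃ z, ‖z - c‖ ≤ δ ∧ f z = 0 := by
  classical
  obtain ⟨ρ, hρ, hρ'⟩ := (Set.Ioc_infinite hδ).exists_notMem_finset
    (p.roots.toFinset.image fun z => ‖z - c‖)
  have hne : ∀ z, ‖z - c‖ = ρ → p.eval z ≠ 0 := by
    intro z hz h0
    exact hρ' (Finset.mem_image.2 ⟨z, by simp [hp, h0], hz⟩)
  obtain ⟨z0, hz0, hmin⟩ := (isCompact_sphere c ρ).exists_isMinOn
    (NormedSpace.sphere_nonempty.2 hρ.1.le) (f := fun z => ‖p.eval z‖) (by fun_prop)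
  have hM : 0 < ‖p.eval z0‖ := norm_pos_iff.2 (hne z0 (by simpa [dist_eq_norm] using hz0))
  refine ⟨‖p.eval z0‖ / 3, by positivity, fun f hf hfp => ?_⟩
  obtain ⟨z, hz, hz'⟩ := minmod (f := f) (c := c) (M := 2 * ‖p.eval z0‖ / 3) hρ.1
    (hf.mono (closedBall_subset_closedBall hρ.2)) (fun z hz => by
      have h1 := hfp z (hz.le.trans hρ.2)
      have h2 : ‖p.eval z0‖ ≤ ‖p.eval z‖ := hmin (by simpa [dist_eq_norm] using hz)
      have h3 := norm_sub_le (f z) (f z - p.eval z)
      rw [sub_sub_cancel] at h3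
      linarith) (by
      have h1 := hfp c (by simpa using hδ.le)
      rw [hc, sub_zero] at h1
      linarith)
  exact ⟨z, hz.trans hρ.2, hz'⟩

/-- Division by a polynomial of degree `r` with `r` known roots. -/
theorem divide {r : ℕ} (q D : ℂ[X]) (hq : q.degree = r) (hD : D.degree < (2 * r : ℕ)) :
    ∃ μ R : ℂ[X], D = q * μ + R ∧ μ.degree < r ∧ R.degree < r := by
  have hq0 : q ≠ 0 := by
    intro h; rw [h, degree_zero] at hq; exact absurd hq (by simp)
  refine ⟨D / q, D % q, (EuclideanDomain.div_add_mod D q).symm, ?_, ?_⟩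
  · by_cases h0 : D / q = 0
    · rw [h0, degree_zero]; exact WithBot.bot_lt_coe _
    · have hle : q.degree ≤ D.degree := by
        by_contra hlt
        exact h0 ((Polynomial.div_eq_zero_iff hq0).2 (not_le.1 hlt))
      have h1 := degree_add_div hq0 hle
      have hD0 : D ≠ 0 := by
        intro h; rw [h] at h0; simp at h0
      rw [degree_eq_natDegree h0, degree_eq_natDegree hD0, hq] at h1
      rw [degree_eq_natDegree hD0] at hD
      rw [degree_eq_natDegree h0]
      have h2 : r + (D / q).natDegree = D.natDegree := by exact_mod_cast h1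
      have h3 : D.natDegree < 2 * r := by exact_mod_cast hD
      exact_mod_cast (by omega : (D / q).natDegree < r)
  · rw [← hq]; exact degree_mod_lt D hq0

end Pool.Agent.MP_d32a63_an.H4
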